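import Mathlib

/-!
# Numerical radius and numerical index; states of real `ℓ_p`
-/

set_option autoImplicit false

namespace Pool.Agent.Y772.NI

open scoped ENNReal

/-- The numerical radius `v(T) = sup {|f(T x)| : ‖x‖ = ‖f‖ = f(x) = 1}` of a bounded linear
operator on a normed space over `𝕜 = ℝ` or `ℂ`. -/
noncomputable def numRadius (𝕜 : Type) [RCLike 𝕜] {X : Type} [NormedAddCommGroup X]
    [NormedSpace 𝕜 X] (T : X →L[𝕜] X) : ℝ :=
  sSup {r : ℝ | ∃ (x : X) (f : X →L[𝕜] 𝕜), ‖x‖ = 1 ∧ ‖f‖ = 1 ∧ f x = 1 ∧ r = ‖f (T x)‖}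

/-- The numerical index `n(X) = inf {v(T) : ‖T‖ = 1}` of a normed space over `𝕜 = ℝ` or `ℂ`. -/
noncomputable def numIndex (𝕜 : Type) [RCLike 𝕜] (X : Type) [NormedAddCommGroup X]
    [NormedSpace 𝕜 X] : ℝ :=
  sInf {r : ℝ | ∃ T : X →L[𝕜] X, ‖T‖ = 1 ∧ r = numRadius 𝕜 T}

section General

variable {X : Type} [NormedAddCommGroup X] [NormedSpace ℝ X]

lemma radius_bdd (T : X →L[ℝ] X) : BddAbove {r : ℝ | ∃ (x : X) (f : X →L[ℝ] ℝ),
    ‖x‖ = 1 ∧ ‖f‖ = 1 ∧ f x = 1 ∧ r = ‖f (T x)‖} := by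
  refine ⟨‖T‖, ?_⟩
  rintro _ ⟨x, f, hx, hf, _, rfl⟩
  calc ‖f (T x)‖ ≤ ‖f‖ * ‖T x‖ := f.le_opNorm _
    _ ≤ 1 * (‖T‖ * 1) := by
        rw [hf]
        gcongr
        calc ‖T x‖ ≤ ‖T‖ * ‖x‖ := T.le_opNorm _
          _ = ‖T‖ * 1 := by rw [hx]
    _ = ‖T‖ := by ring

lemma le_numRadius (T : X →L[ℝ] X) (x : X) (f : X →L[ℝ] ℝ) (hx : ‖x‖ = 1) (hf : ‖f‖ = 1)
    (hfx : f x = 1) : |f (T x)| ≤ numRadius ℝ T :=
  le_csSup (radius_bdd T) ⟨x, f, hx, hf, hfx, rfl⟩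

lemma numRadius_nonneg (T : X →L[ℝ] X) : 0 ≤ numRadius ℝ T := by
  apply Real.sSup_nonneg
  rintro _ ⟨x, f, _, _, _, rfl⟩
  exact norm_nonneg _

/-- An operator `T` with `|f (T x)| ≤ c` on all pairs and `‖T‖ ≥ d > 0` bounds the index by
`c / d`. -/
lemma numIndex_le (T : X →L[ℝ] X) (c d : ℝ) (hc : 0 ≤ c) (hd : 0 < d) (hT : d ≤ ‖T‖)
    (h : ∀ (x : X) (f : X →L[ℝ] ℝ), ‖x‖ = 1 → ‖f‖ = 1 → f x = 1 → |f (T x)| ≤ c) :
    numIndex ℝ X ≤ c / d := by
  have hTp : 0 < ‖T‖ := lt_of_lt_of_le hd hT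
  have hbdd : BddBelow {r : ℝ | ∃ T : X →L[ℝ] X, ‖T‖ = 1 ∧ r = numRadius ℝ T} := by
    refine ⟨0, ?_⟩
    rintro _ ⟨S, _, rfl⟩
    exact numRadius_nonneg S
  have hnorm : ‖‖T‖⁻¹ • T‖ = 1 := by
    rw [norm_smul, norm_inv, norm_norm]
    exact inv_mul_cancel₀ hTp.ne'
  have h1 : numIndex ℝ X ≤ numRadius ℝ (‖T‖⁻¹ • T) := csInf_le hbdd ⟨_, hnorm, rfl⟩
  refine h1.trans (Real.sSup_le ?_ (by positivity))
  rintro _ ⟨x, f, hx, hf, hfx, rfl⟩
  have h3 := h x f hx hf hfx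
  have h4 : f ((‖T‖⁻¹ • T) x) = ‖T‖⁻¹ * f (T x) := by simp
  rw [h4, norm_mul, norm_inv, norm_norm, Real.norm_eq_abs]
  calc ‖T‖⁻¹ * |f (T x)| ≤ d⁻¹ * c := by gcongr
    _ = c / d := by rw [div_eq_mul_inv, mul_comm]

/-- If `K ‖T‖ ≤ v(T)` for all operators then the index is at least `K`. -/
lemma le_numIndex (K : ℝ) [Nontrivial X] (h : ∀ T : X →L[ℝ] X, K * ‖T‖ ≤ numRadius ℝ T) :
    K ≤ numIndex ℝ X := by
  refine le_csInf ⟨_, ContinuousLinearMap.id ℝ X, ContinuousLinearMap.norm_id, rfl⟩ ?_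
  rintro _ ⟨T, hT, rfl⟩
  have h1 := h T
  rwa [hT, mul_one] at h1

end General

section lp

variable {ι : Type} [DecidableEq ι] {P : ℝ≥0∞}

lemma norm_add_single (hP : 0 < P.toReal) (x : lp (fun _ : ι => ℝ) P) (i : ι) (c : ℝ) :
    ‖x + lp.single P i c‖ ^ P.toReal =
      ‖x‖ ^ P.toReal - |x i| ^ P.toReal + |x i + c| ^ P.toReal := by
  have h1 := lp.norm_compl_sum_single hP x {i}
  have h2 := lp.norm_compl_sum_single hP (x + lp.single P i c) {i}
  rw [Finset.sum_singleton, Finset.sum_singleton] at h1 h2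
  have e : (x + lp.single P i c : lp (fun _ : ι => ℝ) P) i = x i + c := by
    rw [lp.coeFn_add, Pi.add_apply, lp.single_apply_self]
  rw [e] at h2
  have e2 : x + lp.single P i c - lp.single P i (x i + c) = x - lp.single P i (x i) := by
    rw [lp.single_add]; abel
  rw [e2] at h2
  simp only [Real.norm_eq_abs] at h1 h2
  linarith

/-- the duality map -/
noncomputable def J (p : ℝ) (z : ℝ) : ℝ := |z| ^ (p - 2) * z

/-- A norm-one functional norming a unit vector of `ℓ_p` is determined on the unit vectors. -/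
lemma state_coord [Fact (1 ≤ P)] {p : ℝ} (hp : 1 < p) (hPp : P.toReal = p)
    (x : lp (fun _ : ι => ℝ) P) (hx : ‖x‖ = 1) (f : lp (fun _ : ι => ℝ) P →L[ℝ] ℝ) (hf : ‖f‖ = 1)
    (hfx : f x = 1) (i : ι) : f (lp.single P i 1) = J p (x i) := by
  have hp0 : 0 < P.toReal := by rw [hPp]; linarith
  set g : ℝ → ℝ := fun ε => (1 - |x i| ^ p + ‖x i + ε‖ ^ p) ^ (1 / p) - 1 -
    ε * f (lp.single P i 1) with hg
  have hg0 : g 0 = 0 := by
    simp only [hg, add_zero, zero_mul, Real.norm_eq_abs, sub_add_cancel, Real.one_rpow,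
      sub_self]
  have hgn : ∀ ε : ℝ, 0 ≤ g ε := by
    intro ε
    have h1 := norm_add_single hp0 x i ε
    rw [hx, Real.one_rpow, hPp] at h1
    have h2 : ‖x + lp.single P i ε‖ = (1 - |x i| ^ p + ‖x i + ε‖ ^ p) ^ (1 / p) := by
      rw [Real.norm_eq_abs, ← h1, ← Real.rpow_mul (norm_nonneg _),
        mul_one_div_cancel (by linarith), Real.rpow_one]
    have h3 : ‖f (x + lp.single P i ε)‖ ≤ ‖x + lp.single P i ε‖ := by
      refine (f.le_opNorm _).trans ?_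
      rw [hf, one_mul]
    have h4 : f (x + lp.single P i ε) = 1 + ε * f (lp.single P i 1) := by
      have : (lp.single P i ε : lp (fun _ : ι => ℝ) P) = ε • lp.single P i 1 := by
        rw [← lp.single_smul, smul_eq_mul, mul_one]
      rw [map_add, hfx, this, map_smul, smul_eq_mul]
    have h5 : 1 + ε * f (lp.single P i 1) ≤ ‖f (x + lp.single P i ε)‖ := by
      rw [h4]; exact le_abs_self _
    simp only [hg]
    rw [← h2]
    linarith
  have hmin : IsLocalMin g 0 := by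
    refine Filter.Eventually.of_forall fun ε => ?_
    rw [hg0]; exact hgn ε
  have hd1 : HasDerivAt (fun ε : ℝ => ‖x i + ε‖ ^ p) (p * |x i| ^ (p - 2) * x i) 0 := by
    have hF := hasFDerivAt_norm_rpow (E := ℝ) (x i + 0) hp
    have hG : HasDerivAt (fun ε : ℝ => x i + ε) 1 0 := by
      simpa using (hasDerivAt_id (0:ℝ)).const_add (x i)
    have := hF.comp_hasDerivAt (0:ℝ) hG
    refine this.congr_deriv ?_
    rw [add_zero, _root_.smul_apply, innerSL_apply_apply, smul_eq_mul, Real.norm_eq_abs]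
    simp
  have hbase : (1 - |x i| ^ p + ‖x i + 0‖ ^ p) = 1 := by
    rw [add_zero, Real.norm_eq_abs]; ring
  have hd2 : HasDerivAt g (p * |x i| ^ (p - 2) * x i * (1 / p) - f (lp.single P i 1)) 0 := by
    have h6 : HasDerivAt (fun ε : ℝ => 1 - |x i| ^ p + ‖x i + ε‖ ^ p)
        (p * |x i| ^ (p - 2) * x i) 0 := hd1.const_add _
    have h7 := h6.rpow_const (p := 1 / p) (Or.inl (by rw [hbase]; exact one_ne_zero))
    rw [hbase, Real.one_rpow, mul_one] at h7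
    have h8 := (h7.sub_const 1).sub ((hasDerivAt_id (0:ℝ)).mul_const (f (lp.single P i 1)))
    refine h8.congr_deriv ?_
    rw [one_mul]
  have hz := hmin.hasDerivAt_eq_zero hd2
  have hpp : p ≠ 0 := by linarith
  have : p * |x i| ^ (p - 2) * x i * (1 / p) = |x i| ^ (p - 2) * x i := by field_simp
  rw [this] at hz
  unfold J
  linarith

lemma J_mul {p : ℝ} (hp : 1 < p) (z : ℝ) : J p z * z = |z| ^ p := by
  unfold J
  rcases (abs_nonneg z).eq_or_lt with h | h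
  · have h0 : z = 0 := abs_eq_zero.mp h.symm
    rw [h0, mul_zero, abs_zero, Real.zero_rpow (by linarith)]
  · rw [mul_assoc, ← abs_mul_abs_self z, ← pow_two, ← Real.rpow_natCast |z| 2, ← Real.rpow_add h]
    congr 1; push_cast; ring

lemma J_smul {p c : ℝ} (hc : 0 < c) (z : ℝ) : J p (c * z) = c ^ (p - 1) * J p z := by
  unfold J
  rw [abs_mul, abs_of_pos hc, Real.mul_rpow hc.le (abs_nonneg _)]
  have : c ^ (p - 1) = c ^ (p - 2) * c := by
    rw [← Real.rpow_add_one hc.ne']; congr 1; ring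
  rw [this]; ring

end lp

end Pool.Agent.Y772.NI
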