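import Pool.Agent.Y772.NI.Big

/-!
# `n(ℓ_p(ι)) < M_p` for real scalars, `p > 2` and `|ι| ≥ 3`
-/

set_option autoImplicit false

namespace Pool.Agent.Y772.NI

open scoped ENNReal Topology

variable {P : ℝ≥0∞} [Fact (1 ≤ P)] {ι : Type} [DecidableEq ι]

/-- the matrix -/
noncomputable def mat (a c ε : ℝ) : Fin 3 → Fin 3 → ℝ :=
  ![![-(ε * a), -ε, c], ![ε, ε * a, c], ![-(1 / (2 * c)), -(1 / (2 * c)), 0]]

/-- the values on the states -/
lemma mat_value {p M u : ℝ} (h : Crit p M u) (hp : 2 < p) : ∃ C : ℝ, 0 < C ∧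
    ∀ c : ℝ, 0 < c → c ^ p = 1 / 2 → ∀ ε x y z : ℝ, 0 ≤ ε →
      |(-(ε * aa p u) * x + -ε * y + c * z) * J p x + (ε * x + ε * aa p u * y + c * z) * J p y +
        (-(1 / (2 * c)) * x + -(1 / (2 * c)) * y + 0 * z) * J p z| ≤
        (M + C * ε ^ 2) * (|x| ^ p + |y| ^ p + |z| ^ p) := by
  obtain ⟨C, hC, hest⟩ := main_est h hp
  refine ⟨C, hC, fun c hc hcp ε x y z hε => ?_⟩
  have h1 := hest ε x y (c * z) hε
  have e1 : |c * z| ^ p = |z| ^ p / 2 := by
    rw [abs_mul, abs_of_pos hc, Real.mul_rpow hc.le (abs_nonneg z), hcp]; ring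
  have e2 : J p (c * z) = c ^ (p - 1) * J p z := J_smul hc z
  have e3 : c ^ (p - 1) = 1 / (2 * c) := by
    have : c ^ p = c ^ (p - 1) * c := by
      rw [← Real.rpow_add_one hc.ne']; congr 1; ring
    rw [eq_div_iff (by positivity)]
    linarith
  rw [e1, e2, e3] at h1
  have jx := J_mul (p := p) (by linarith) x
  have jy := J_mul (p := p) (by linarith) y
  have e4 : (-(ε * aa p u) * x + -ε * y + c * z) * J p x + (ε * x + ε * aa p u * y + c * z) * J p y +
        (-(1 / (2 * c)) * x + -(1 / (2 * c)) * y + 0 * z) * J p z =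
      c * z * (J p x + J p y) - 1 / (2 * c) * J p z * (x + y) + ε * BB p (aa p u) x y := by
    unfold BB
    rw [← jx, ← jy]
    ring
  rw [e4]
  refine h1.trans (le_of_eq ?_)
  ring

/-- **`n(ℓ_p(ι)) < M_p`** for real scalars, `p > 2`, `|ι| ≥ 3` -/
theorem below {p : ℝ} (hp : 2 < p) (hPp : P.toReal = p) {i0 i1 i2 : ι} (h01 : i0 ≠ i1)
    (h02 : i0 ≠ i2) (h12 : i1 ≠ i2) : numIndex ℝ (lp (fun _ : ι => ℝ) P) < bigM p := by
  obtain ⟨u, h⟩ := exists_crit hp
  have hp0 : 0 < p := by linarith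
  have hM := h.M0
  obtain ⟨C, hC, hval⟩ := mat_value h hp
  obtain ⟨ha0, ha1⟩ := aa_bounds h hp
  set M := bigM p with hMdef
  set c : ℝ := (1 / 2) ^ (1 / p) with hcdef
  have hc : 0 < c := Real.rpow_pos_of_pos (by norm_num) _
  have hcp : c ^ p = 1 / 2 := by
    rw [hcdef, ← Real.rpow_mul (by norm_num), one_div_mul_cancel hp0.ne', Real.rpow_one]
  set κ : ℝ := p * ((1 - aa p u) / c) with hκ
  have hκ0 : 0 < κ := mul_pos hp0 (div_pos (by linarith) hc)
  set K : ℝ := p * 2 ^ (p - 1) * (C / M) with hK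
  have hK0 : 0 < K := by positivity
  -- the choice of `α`
  obtain ⟨α, hα0, hα1, hαs, hαC⟩ : ∃ α : ℝ, 0 < α ∧ α < 1 ∧ α ^ (p / 2 - 1) < κ / (3 * K + 2) ∧
      C / M * α ^ p < 1 := by
    have t1 : ∀ᶠ α : ℝ in 𝓝 0, α ^ (p / 2 - 1) < κ / (3 * K + 2) := by
      refine (Real.continuous_rpow_const (show 0 ≤ p / 2 - 1 by linarith)).continuousAt.eventually_lt
        continuousAt_const ?_
      rw [Real.zero_rpow (by linarith)]
      positivity
    have t2 : ∀ᶠ α : ℝ in 𝓝 0, C / M * α ^ p < 1 := by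
      refine (continuous_const.mul (Real.continuous_rpow_const hp0.le)).continuousAt.eventually_lt
        continuousAt_const ?_
      change C / M * (0 : ℝ) ^ p < 1
      rw [Real.zero_rpow hp0.ne', mul_zero]
      norm_num
    have t3 : ∀ᶠ α : ℝ in 𝓝 0, α < 1 := eventually_lt_nhds (by norm_num)
    have t4 : ∀ᶠ α : ℝ in 𝓝[>] 0, 0 < α := eventually_mem_nhdsWithin
    obtain ⟨α, ⟨⟨h1, h2⟩, h3⟩, h4⟩ :=
      ((((t1.and t2).and t3).filter_mono nhdsWithin_le_nhds).and t4).exists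
    exact ⟨α, h4, h3, h1, h2⟩
  set ε : ℝ := α ^ (p / 2) with hε
  have hε0 : 0 < ε := Real.rpow_pos_of_pos hα0 _
  have hε2 : ε ^ 2 = α ^ p := by
    rw [hε, ← Real.rpow_natCast, ← Real.rpow_mul hα0.le]; congr 1; push_cast; ring
  have hαp1 : α ^ p ≤ 1 := Real.rpow_le_one hα0.le hα1.le hp0.le
  have hαp0 : 0 < α ^ p := Real.rpow_pos_of_pos hα0 _
  have hεα : ε * α = α ^ p / α ^ (p / 2 - 1) := by
    rw [hε, eq_div_iff (Real.rpow_pos_of_pos hα0 _).ne', mul_assoc, mul_comm α,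
      ← Real.rpow_add_one hα0.ne', ← Real.rpow_add hα0]
    congr 1; ring
  -- the operator
  set T := op3 P i0 i1 i2 (mat (aa p u) c ε) with hT
  have hrad : ∀ (x : lp (fun _ : ι => ℝ) P) (f : lp (fun _ : ι => ℝ) P →L[ℝ] ℝ), ‖x‖ = 1 → ‖f‖ = 1 →
      f x = 1 → |f (T x)| ≤ M + C * ε ^ 2 := by
    intro x f hx hf hfx
    rw [hT, op3_state (by linarith) hPp i0 i1 i2 _ x f hx hf hfx]
    have h1 := hval c hc hcp ε (x i0) (x i1) (x i2) hε0.le
    have h2 := sum_le hp0 hPp x {i0, i1, i2}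
    rw [hx, Real.one_rpow, Finset.sum_insert (by simp [h01, h02]), Finset.sum_insert (by simp [h12]),
      Finset.sum_singleton] at h2
    have h3 : (M + C * ε ^ 2) * (|x i0| ^ p + |x i1| ^ p + |x i2| ^ p) ≤ M + C * ε ^ 2 :=
      mul_le_of_le_one_right (by positivity) (by linarith)
    exact h1.trans h3
  have hnorm : 1 + κ * (ε * α) ≤ ‖T‖ ^ p * (1 + 2 * α ^ p) := by
    have h1 := op3_norm hp0 hPp h01 h02 h12 (mat (aa p u) c ε) α (-α) 1
    have m00 : mat (aa p u) c ε 0 0 = -(ε * aa p u) := rfl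
    have m01 : mat (aa p u) c ε 0 1 = -ε := rfl
    have m02 : mat (aa p u) c ε 0 2 = c := rfl
    have m10 : mat (aa p u) c ε 1 0 = ε := rfl
    have m11 : mat (aa p u) c ε 1 1 = ε * aa p u := rfl
    have m12 : mat (aa p u) c ε 1 2 = c := rfl
    have m20 : mat (aa p u) c ε 2 0 = -(1 / (2 * c)) := rfl
    have m21 : mat (aa p u) c ε 2 1 = -(1 / (2 * c)) := rfl
    have m22 : mat (aa p u) c ε 2 2 = 0 := rfl
    rw [m00, m01, m02, m10, m11, m12, m20, m21, m22, ← hT, abs_neg α, abs_of_pos hα0, abs_one,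
      Real.one_rpow] at h1
    have q0 : 0 < c + ε * (1 - aa p u) * α := by
      have : 0 < 1 - aa p u := by linarith
      positivity
    have e0 : -(ε * aa p u) * α + -ε * -α + c * 1 = c + ε * (1 - aa p u) * α := by ring
    have e1 : ε * α + ε * aa p u * -α + c * 1 = c + ε * (1 - aa p u) * α := by ring
    have e2 : -(1 / (2 * c)) * α + -(1 / (2 * c)) * -α + 0 * 1 = 0 := by ring
    rw [e0, e1, e2, abs_zero, Real.zero_rpow hp0.ne', abs_of_pos q0] at h1
    have h2 := bern1 hc q0.le (show 1 ≤ p by linarith)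
    have h3 : c ^ (p - 1) = 1 / (2 * c) := by
      have : c ^ p = c ^ (p - 1) * c := by
        rw [← Real.rpow_add_one hc.ne']; congr 1; ring
      rw [eq_div_iff (by positivity)]
      linarith
    rw [hcp, h3] at h2
    have h4 : 1 / 2 + p * (1 / (2 * c)) * (c + ε * (1 - aa p u) * α - c) =
        (1 + κ * (ε * α)) / 2 := by
      rw [hκ]; field_simp; ring
    rw [h4] at h2
    have h5 : ‖T‖ ^ p * (α ^ p + α ^ p + 1) = ‖T‖ ^ p * (1 + 2 * α ^ p) := by ring
    linarith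
  -- comparison
  have hT0 : 0 ≤ ‖T‖ := norm_nonneg T
  have hkey : M + C * ε ^ 2 < M * ‖T‖ := by
    by_contra hcon
    rw [not_lt] at hcon
    set x : ℝ := C / M * α ^ p with hx
    have hx0 : 0 ≤ x := by positivity
    have h1 : ‖T‖ ≤ 1 + x := by
      have : M * (1 + x) = M + C * ε ^ 2 := by rw [hx, hε2]; field_simp
      rw [← this] at hcon
      exact le_of_mul_le_mul_left hcon hM
    have h2 : ‖T‖ ^ p ≤ (1 + x) ^ p := Real.rpow_le_rpow hT0 h1 hp0.le
    have h3 : (1 + x) ^ p ≤ 1 + K * α ^ p := by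
      have b := bern1 (s := 1 + x) (t := 1) (r := p) (by linarith) (by norm_num) (by linarith)
      rw [Real.one_rpow] at b
      have b2 : (1 + x) ^ (p - 1) ≤ 2 ^ (p - 1) :=
        Real.rpow_le_rpow (by linarith) (by linarith) (by linarith)
      have b3 : p * x * (1 + x) ^ (p - 1) ≤ p * x * 2 ^ (p - 1) :=
        mul_le_mul_of_nonneg_left b2 (by positivity)
      have b4 : p * x * 2 ^ (p - 1) = K * α ^ p := by rw [hK, hx]; ring
      linarith
    have h4 : 1 + κ * (ε * α) ≤ (1 + K * α ^ p) * (1 + 2 * α ^ p) :=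
      hnorm.trans (mul_le_mul_of_nonneg_right (h2.trans h3) (by positivity))
    have h5 : (1 + K * α ^ p) * (1 + 2 * α ^ p) ≤ 1 + (3 * K + 2) * α ^ p := by
      have : K * α ^ p * α ^ p ≤ K * α ^ p * 1 := mul_le_mul_of_nonneg_left hαp1 (by positivity)
      linarith
    have h6 : κ * (ε * α) ≤ (3 * K + 2) * α ^ p := by linarith
    rw [hεα] at h6
    have hs : 0 < α ^ (p / 2 - 1) := Real.rpow_pos_of_pos hα0 _
    rw [lt_div_iff₀ (by positivity)] at hαs
    rw [mul_div_assoc', div_le_iff₀ hs] at h6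
    have h7 := mul_lt_mul_of_pos_right hαs hαp0
    linarith
  have hTpos : 0 < ‖T‖ := by
    by_contra h0
    have : ‖T‖ = 0 := le_antisymm (not_lt.mp h0) hT0
    rw [this, mul_zero] at hkey
    have : 0 < M + C * ε ^ 2 := by positivity
    linarith
  have hfin := numIndex_le T (M + C * ε ^ 2) ‖T‖ (by positivity) hTpos le_rfl hrad
  refine hfin.trans_lt ?_
  rw [div_lt_iff₀ hTpos]
  exact hkey

end Pool.Agent.Y772.NI
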