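import Pool.Agent.Y772.NI.Base

/-!
# The real plane `ℓ_p^2`
-/

set_option autoImplicit false

namespace Pool.Agent.Y772.NI

open scoped ENNReal

variable {P : ℝ≥0∞} [Fact (1 ≤ P)]

/-- matrix entries -/
noncomputable def ent (T : lp (fun _ : Fin 2 => ℝ) P →L[ℝ] lp (fun _ : Fin 2 => ℝ) P)
    (i j : Fin 2) : ℝ := T (lp.single P j 1) i

omit [Fact (1 ≤ P)] in
lemma expand2 (x : lp (fun _ : Fin 2 => ℝ) P) :
    x = x 0 • lp.single P 0 1 + x 1 • lp.single P 1 1 := by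
  apply lp.ext
  funext i
  rw [lp.coeFn_add, lp.coeFn_smul, lp.coeFn_smul]
  fin_cases i <;> simp

lemma T_coord (T : lp (fun _ : Fin 2 => ℝ) P →L[ℝ] lp (fun _ : Fin 2 => ℝ) P)
    (x : lp (fun _ : Fin 2 => ℝ) P) (i : Fin 2) :
    T x i = ent T i 0 * x 0 + ent T i 1 * x 1 := by
  conv_lhs => rw [expand2 x]
  rw [map_add, map_smul, map_smul, lp.coeFn_add, lp.coeFn_smul, lp.coeFn_smul]
  simp only [Pi.add_apply, Pi.smul_apply, smul_eq_mul, ent]
  ring

lemma f_coord (f : lp (fun _ : Fin 2 => ℝ) P →L[ℝ] ℝ) (x : lp (fun _ : Fin 2 => ℝ) P) :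
    f x = f (lp.single P 0 1) * x 0 + f (lp.single P 1 1) * x 1 := by
  conv_lhs => rw [expand2 x]
  rw [map_add, map_smul, map_smul]
  simp only [smul_eq_mul]
  ring

omit [Fact (1 ≤ P)] in
lemma norm2 {p : ℝ} (hp : 0 < p) (hPp : P.toReal = p) (x : lp (fun _ : Fin 2 => ℝ) P) :
    ‖x‖ ^ p = |x 0| ^ p + |x 1| ^ p := by
  have := lp.norm_rpow_eq_tsum (by rw [hPp]; exact hp) x
  rw [hPp, tsum_fintype, Fin.sum_univ_two] at this
  exact this

/-- the vector with given coordinates -/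
noncomputable def vec (P : ℝ≥0∞) (u v : ℝ) : lp (fun _ : Fin 2 => ℝ) P :=
  u • lp.single P 0 1 + v • lp.single P 1 1

omit [Fact (1 ≤ P)] in
@[simp] lemma vec0 (u v : ℝ) : vec P u v 0 = u := by
  unfold vec
  rw [lp.coeFn_add, lp.coeFn_smul, lp.coeFn_smul]; simp

omit [Fact (1 ≤ P)] in
@[simp] lemma vec1 (u v : ℝ) : vec P u v 1 = v := by
  unfold vec
  rw [lp.coeFn_add, lp.coeFn_smul, lp.coeFn_smul]; simp

/-- comparison of norms -/
lemma norm_mono {p : ℝ} (hp : 0 < p) (hPp : P.toReal = p) (x y : lp (fun _ : Fin 2 => ℝ) P)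
    (h0 : |x 0| ≤ |y 0|) (h1 : |x 1| ≤ |y 1|) : ‖x‖ ≤ ‖y‖ := by
  have h : ‖x‖ ^ p ≤ ‖y‖ ^ p := by
    rw [norm2 hp hPp, norm2 hp hPp]
    gcongr
  exact (Real.rpow_le_rpow_iff (norm_nonneg _) (norm_nonneg _) hp).mp h

lemma exists_state {p : ℝ} (hp : 1 < p) (hPp : P.toReal = p)
    (x : lp (fun _ : Fin 2 => ℝ) P) (hx : ‖x‖ = 1) : ∃ f : lp (fun _ : Fin 2 => ℝ) P →L[ℝ] ℝ,
    ‖f‖ = 1 ∧ f x = 1 ∧ f (lp.single P 0 1) = J p (x 0) ∧ f (lp.single P 1 1) = J p (x 1) := by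
  obtain ⟨f, hf, hfx⟩ := exists_dual_vector ℝ x (by rw [hx]; exact one_ne_zero)
  have hfx' : f x = 1 := by rw [hfx, hx]; simp
  exact ⟨f, hf, hfx', state_coord hp hPp x hx f hf hfx' 0,
    state_coord hp hPp x hx f hf hfx' 1⟩

/-- the inequality of the numerical radius, homogeneous form -/
lemma state_ineq {p : ℝ} (hp : 1 < p) (hPp : P.toReal = p)
    (T : lp (fun _ : Fin 2 => ℝ) P →L[ℝ] lp (fun _ : Fin 2 => ℝ) P) (u v : ℝ) :
    |J p u * (ent T 0 0 * u + ent T 0 1 * v) + J p v * (ent T 1 0 * u + ent T 1 1 * v)| ≤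
      numRadius ℝ T * (|u| ^ p + |v| ^ p) := by
  have hp0 : 0 < p := by linarith
  set x : lp (fun _ : Fin 2 => ℝ) P := vec P u v with hxdef
  have hn := norm2 hp0 hPp x
  rw [hxdef, vec0, vec1] at hn
  rw [← hn]
  rcases (norm_nonneg (vec P u v)).eq_or_lt with h0 | h0
  · have hx0 : vec P u v = 0 := norm_eq_zero.mp h0.symm
    have hu : u = 0 := by rw [← vec0 (P := P) u v, hx0]; rfl
    have hv : v = 0 := by rw [← vec1 (P := P) u v, hx0]; rfl
    rw [hu, hv]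
    simp only [mul_zero, add_zero, abs_zero]
    exact mul_nonneg (numRadius_nonneg _) (Real.rpow_nonneg (norm_nonneg _) _)
  · set N := ‖vec P u v‖ with hN
    have hNi : 0 < N⁻¹ := inv_pos.mpr h0
    have hy : ‖vec P (N⁻¹ * u) (N⁻¹ * v)‖ = 1 := by
      have : vec P (N⁻¹ * u) (N⁻¹ * v) = N⁻¹ • vec P u v := by
        unfold vec
        rw [smul_add, smul_smul, smul_smul]
      rw [this, norm_smul, Real.norm_of_nonneg hNi.le, ← hN, inv_mul_cancel₀ h0.ne']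
    obtain ⟨f, hf, hfx, hf0, hf1⟩ := exists_state hp hPp _ hy
    have h3 := le_numRadius T _ f hy hf hfx
    rw [f_coord f (T _), T_coord, T_coord, hf0, hf1, vec0, vec1, J_smul hNi, J_smul hNi] at h3
    have e : N⁻¹ ^ (p - 1) * J p u * (ent T 0 0 * (N⁻¹ * u) + ent T 0 1 * (N⁻¹ * v)) +
        N⁻¹ ^ (p - 1) * J p v * (ent T 1 0 * (N⁻¹ * u) + ent T 1 1 * (N⁻¹ * v)) =
        (N⁻¹ ^ (p - 1) * N⁻¹) * (J p u * (ent T 0 0 * u + ent T 0 1 * v) +
          J p v * (ent T 1 0 * u + ent T 1 1 * v)) := by ring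
    have e2 : N⁻¹ ^ (p - 1) * N⁻¹ = (N ^ p)⁻¹ := by
      rw [← Real.rpow_add_one hNi.ne', sub_add_cancel, Real.inv_rpow h0.le]
    rw [e, e2, abs_mul, abs_of_pos (inv_pos.mpr (Real.rpow_pos_of_pos h0 p)),
      inv_mul_le_iff₀ (Real.rpow_pos_of_pos h0 p)] at h3
    exact h3.trans_eq (mul_comm _ _)

omit [Fact (1 ≤ P)] in
lemma norm_vec {p : ℝ} (hp : 0 < p) (hPp : P.toReal = p) (x y : ℝ) :
    ‖vec P x y‖ ^ p = |x| ^ p + |y| ^ p := by
  rw [norm2 hp hPp, vec0, vec1]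

lemma norm_vec_le {p : ℝ} (hp : 0 < p) (hPp : P.toReal = p) {x y x' y' : ℝ}
    (h : |x| ^ p + |y| ^ p ≤ |x'| ^ p + |y'| ^ p) : ‖vec P x y‖ ≤ ‖vec P x' y'‖ := by
  refine (Real.rpow_le_rpow_iff (norm_nonneg _) (norm_nonneg _) hp).mp ?_
  rw [norm_vec hp hPp, norm_vec hp hPp]
  exact h

lemma key {p u g : ℝ} (hp : 1 < p) (hPp : P.toReal = p) (hu0 : 0 < u) (hu1 : u < 1)
    (hg0 : 0 < g) (hg1 : g < 1)
    (hcond : (u * (1 - g ^ 2) / (1 - u ^ 2 * g ^ 2)) ^ p +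
      ((1 - g) * (1 + u ^ 2 * g) / (1 - u ^ 2 * g ^ 2)) ^ p ≤ 1)
    {A D b c N x y : ℝ} (hA : D ≤ A) (hD : 0 ≤ D) (hb0 : 0 ≤ b) (hc0 : 0 ≤ c) (hx : 0 ≤ x)
    (hy : 0 ≤ y)
    (hb : u * (1 - g ^ 2) * b ≤ u * (1 - g ^ 2) * N - A * (1 - u ^ 2 * g ^ 2) - D * (g * (1 - u ^ 2)))
    (hc : u * (1 - g ^ 2) * c ≤ u * (1 - g ^ 2) * N - A * (g * (1 - u ^ 2)) - D * (1 - u ^ 2 * g ^ 2)) :
    ‖vec P (A * x + b * y) (c * x + D * y)‖ ≤ N * ‖vec P x y‖ := by
  have hp0 : 0 < p := by linarith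
  have hu2 : u ^ 2 < 1 := by nlinarith
  have hg2 : g ^ 2 < 1 := by nlinarith
  have hug : u ^ 2 * g < 1 := by nlinarith [pow_pos hu0 2]
  have hug2 : u ^ 2 * g ^ 2 < 1 := by nlinarith [pow_pos hu0 2, pow_pos hg0 2]
  set κ : ℝ := 1 - u ^ 2 * g ^ 2 with hκ
  have hκ0 : 0 < κ := by rw [hκ]; linarith
  have hq : 0 < u * (1 - g ^ 2) := mul_pos hu0 (by linarith)
  set q : ℝ := u * (1 - g ^ 2) with hqd
  set A1 : ℝ := q / κ with hA1
  set γ1 : ℝ := (1 - g) * (1 + u ^ 2 * g) / κ with hγ1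
  set s : ℝ := u * (1 - g) / (1 - u ^ 2 * g) with hs
  have hA10 : 0 < A1 := div_pos hq hκ0
  have hγ10 : 0 ≤ γ1 := div_nonneg (mul_nonneg (by linarith) (by positivity)) hκ0.le
  have hs0 : 0 < s := div_pos (mul_pos hu0 (by linarith)) (by linarith)
  have hs1 : s ≤ 1 := by
    rw [hs, div_le_one (by linarith)]
    nlinarith [mul_pos hu0 hg0]
  -- the coefficients
  set μ1 : ℝ := (A - D) * κ / q with hμ1
  set μ3 : ℝ := D * (κ + g * (1 - u ^ 2)) / q with hμ3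
  set μ0 : ℝ := N - μ1 - μ3 with hμ0
  have h1 : 0 ≤ μ1 := div_nonneg (mul_nonneg (by linarith) hκ0.le) hq.le
  have h3 : 0 ≤ μ3 := div_nonneg (mul_nonneg hD (add_nonneg hκ0.le
    (mul_nonneg hg0.le (by linarith)))) hq.le
  have e0 : q * μ0 = q * N - A * κ - D * (g * (1 - u ^ 2)) := by
    rw [hμ0, hμ1, hμ3]
    field_simp
    ring
  have hbμ : b ≤ μ0 := by
    refine le_of_mul_le_mul_left ?_ hq
    rw [e0]; exact hb
  have h0 : 0 ≤ μ0 := hb0.trans hbμ
  have eA : μ1 * A1 + μ3 * s = A := by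
    have hne : (1 - u ^ 2 * g) ≠ 0 := by
      have : 0 < 1 - u ^ 2 * g := by linarith
      exact this.ne'
    have e3 : κ + g * (1 - u ^ 2) = (1 + g) * (1 - u ^ 2 * g) := by rw [hκ]; ring
    have e4 : μ3 * s = D := by
      rw [hμ3, hs, e3, div_mul_div_comm, div_eq_iff (mul_ne_zero hq.ne' hne), hqd]
      ring
    have e5 : μ1 * A1 = A - D := by
      rw [hμ1, hA1]; field_simp
    rw [e4, e5]; ring
  have eD : μ3 * s = D := by
    have e5 : μ1 * A1 = A - D := by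
      rw [hμ1, hA1]; field_simp
    linarith
  have hcμ : c ≤ μ0 + μ1 * γ1 := by
    refine le_of_mul_le_mul_left ?_ hq
    rw [mul_add, e0]
    have : q * (μ1 * γ1) = (A - D) * ((1 - g) * (1 + u ^ 2 * g)) := by
      rw [hμ1, hγ1]; field_simp
    rw [this]
    refine hc.trans (le_of_eq ?_)
    rw [hκ]; ring
  -- the three vectors
  have n0 : ‖vec P y x‖ = ‖vec P x y‖ :=
    le_antisymm (norm_vec_le hp0 hPp (by rw [add_comm])) (norm_vec_le hp0 hPp (by rw [add_comm]))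
  have n1 : ‖vec P (A1 * x) (γ1 * x)‖ ≤ ‖vec P x y‖ := by
    refine norm_vec_le hp0 hPp ?_
    rw [abs_mul, abs_mul, abs_of_nonneg hx, abs_of_nonneg hy, abs_of_pos hA10, abs_of_nonneg hγ10,
      Real.mul_rpow hA10.le hx, Real.mul_rpow hγ10 hx, ← add_mul]
    have := mul_le_mul_of_nonneg_right hcond (Real.rpow_nonneg hx p)
    have := Real.rpow_nonneg hy p
    linarith
  have n3 : ‖vec P (s * x) (s * y)‖ ≤ ‖vec P x y‖ := by
    refine norm_vec_le hp0 hPp ?_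
    rw [abs_mul, abs_mul, abs_of_nonneg hx, abs_of_nonneg hy, abs_of_pos hs0]
    have h5 : s * x ≤ x := mul_le_of_le_one_left hx hs1
    have h6 : s * y ≤ y := mul_le_of_le_one_left hy hs1
    gcongr
  calc ‖vec P (A * x + b * y) (c * x + D * y)‖
      ≤ ‖μ0 • vec P y x + μ1 • vec P (A1 * x) (γ1 * x) + μ3 • vec P (s * x) (s * y)‖ := by
        refine norm_mono hp0 hPp _ _ ?_ ?_
        · rw [vec0, lp.coeFn_add, lp.coeFn_add, lp.coeFn_smul, lp.coeFn_smul, lp.coeFn_smul]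
          simp only [Pi.add_apply, Pi.smul_apply, vec0, smul_eq_mul]
          have hl : 0 ≤ A * x + b * y := by
            have := mul_nonneg (hD.trans hA) hx
            have := mul_nonneg hb0 hy
            linarith
          rw [abs_of_nonneg hl]
          refine le_trans ?_ (le_abs_self _)
          have : b * y ≤ μ0 * y := mul_le_mul_of_nonneg_right hbμ hy
          have : A * x = μ1 * (A1 * x) + μ3 * (s * x) := by rw [← eA]; ring
          linarith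
        · rw [vec1, lp.coeFn_add, lp.coeFn_add, lp.coeFn_smul, lp.coeFn_smul, lp.coeFn_smul]
          simp only [Pi.add_apply, Pi.smul_apply, vec1, smul_eq_mul]
          have hl : 0 ≤ c * x + D * y := by
            have := mul_nonneg hD hy
            have := mul_nonneg hc0 hx
            linarith
          rw [abs_of_nonneg hl]
          refine le_trans ?_ (le_abs_self _)
          have : c * x ≤ (μ0 + μ1 * γ1) * x := mul_le_mul_of_nonneg_right hcμ hx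
          have : D * y = μ3 * (s * y) := by rw [← mul_assoc, eD]
          linarith
    _ ≤ μ0 * ‖vec P y x‖ + μ1 * ‖vec P (A1 * x) (γ1 * x)‖ + μ3 * ‖vec P (s * x) (s * y)‖ := by
        refine (norm_add_le _ _).trans (add_le_add ((norm_add_le _ _).trans (add_le_add ?_ ?_)) ?_)
        · rw [norm_smul, Real.norm_of_nonneg h0]
        · rw [norm_smul, Real.norm_of_nonneg h1]
        · rw [norm_smul, Real.norm_of_nonneg h3]
    _ ≤ μ0 * ‖vec P x y‖ + μ1 * ‖vec P x y‖ + μ3 * ‖vec P x y‖ := by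
        rw [n0]; gcongr
    _ = N * ‖vec P x y‖ := by rw [hμ0]; ring

/-- **The main inequality in the plane.** Here `g = u^(p-2)`. -/
theorem norm_le {p u g : ℝ} (hp : 1 < p) (hPp : P.toReal = p) (hu0 : 0 < u) (hu1 : u < 1)
    (hg0 : 0 < g) (hg1 : g < 1) (hg : u ^ (p - 2) = g)
    (hcond : (u * (1 - g ^ 2) / (1 - u ^ 2 * g ^ 2)) ^ p +
      ((1 - g) * (1 + u ^ 2 * g) / (1 - u ^ 2 * g ^ 2)) ^ p ≤ 1)
    (T : lp (fun _ : Fin 2 => ℝ) P →L[ℝ] lp (fun _ : Fin 2 => ℝ) P) :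
    u * (1 - g) / (1 + u ^ 2 * g) * ‖T‖ ≤ numRadius ℝ T := by
  have hp0 : 0 < p := by linarith
  set a := ent T 0 0 with ha
  set b := ent T 0 1 with hb
  set c := ent T 1 0 with hc
  set d := ent T 1 1 with hd
  set V := numRadius ℝ T with hV
  have hV0 : 0 ≤ V := numRadius_nonneg T
  set W : ℝ := V * (1 + u ^ 2 * g) with hW
  have J1 : J p 1 = 1 := by unfold J; simp
  have Ju : J p u = g * u := by unfold J; rw [abs_of_pos hu0, hg]
  have Jm1 : J p (-1) = -1 := by unfold J; simp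
  have Jmu : J p (-u) = -(g * u) := by unfold J; rw [abs_neg, abs_of_pos hu0, hg]; ring
  have pu : u ^ p = u ^ 2 * g := by
    rw [← hg, ← Real.rpow_natCast u 2, ← Real.rpow_add hu0]; congr 1; push_cast; ring
  have s1 := state_ineq hp hPp T 1 u
  have s2 := state_ineq hp hPp T 1 (-u)
  have s3 := state_ineq hp hPp T u 1
  have s4 := state_ineq hp hPp T u (-1)
  rw [← ha, ← hb, ← hc, ← hd, ← hV] at s1 s2 s3 s4
  rw [J1, Ju, abs_one, Real.one_rpow, abs_of_pos hu0, pu] at s1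
  rw [J1, Jmu, abs_one, Real.one_rpow, abs_neg, abs_of_pos hu0, pu] at s2
  rw [J1, Ju, abs_one, Real.one_rpow, abs_of_pos hu0, pu] at s3
  rw [Jm1, Ju, abs_neg, abs_one, Real.one_rpow, abs_of_pos hu0, pu] at s4
  rw [abs_le] at s1 s2 s3 s4
  obtain ⟨s1a, s1b⟩ := s1
  obtain ⟨s2a, s2b⟩ := s2
  obtain ⟨s3a, s3b⟩ := s3
  obtain ⟨s4a, s4b⟩ := s4
  -- the two inequalities
  have X1 : |a + u ^ 2 * g * d| + |u * b + g * u * c| ≤ W := by
    rw [hW]
    rcases abs_cases (a + u ^ 2 * g * d) with ⟨e1, _⟩ | ⟨e1, _⟩ <;>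
    rcases abs_cases (u * b + g * u * c) with ⟨e2, _⟩ | ⟨e2, _⟩ <;> rw [e1, e2] <;> linarith
  have X2 : |u ^ 2 * g * a + d| + |g * u * b + u * c| ≤ W := by
    rw [hW]
    rcases abs_cases (u ^ 2 * g * a + d) with ⟨e1, _⟩ | ⟨e1, _⟩ <;>
    rcases abs_cases (g * u * b + u * c) with ⟨e2, _⟩ | ⟨e2, _⟩ <;> rw [e1, e2] <;> linarith
  have hu2g : 0 < u ^ 2 * g := by positivity
  have hgu : 0 < g * u := by positivity
  have Y1 : |a| - u ^ 2 * g * |d| ≤ |a + u ^ 2 * g * d| := by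
    have := abs_sub_abs_le_abs_sub a (-(u ^ 2 * g * d))
    rw [abs_neg, abs_mul, abs_of_pos hu2g, sub_neg_eq_add] at this
    exact this
  have Y2 : u * |b| - g * u * |c| ≤ |u * b + g * u * c| := by
    have := abs_sub_abs_le_abs_sub (u * b) (-(g * u * c))
    rw [abs_neg, abs_mul, abs_mul (g * u), abs_of_pos hu0, abs_of_pos hgu, sub_neg_eq_add] at this
    exact this
  have Y3 : |d| - u ^ 2 * g * |a| ≤ |u ^ 2 * g * a + d| := by
    have := abs_sub_abs_le_abs_sub d (-(u ^ 2 * g * a))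
    rw [abs_neg, abs_mul, abs_of_pos hu2g, sub_neg_eq_add, add_comm d] at this
    exact this
  have Y4 : u * |c| - g * u * |b| ≤ |g * u * b + u * c| := by
    have := abs_sub_abs_le_abs_sub (u * c) (-(g * u * b))
    rw [abs_neg, abs_mul, abs_mul (g * u), abs_of_pos hu0, abs_of_pos hgu, sub_neg_eq_add,
      add_comm (u * c)] at this
    exact this
  have Z1 : |a| - u ^ 2 * g * |d| + (u * |b| - g * u * |c|) ≤ W := by linarith
  have Z2 : |d| - u ^ 2 * g * |a| + (u * |c| - g * u * |b|) ≤ W := by linarith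
  have hK : 0 < u * (1 - g) := mul_pos hu0 (by linarith)
  set N : ℝ := W / (u * (1 - g)) with hN
  have hNW : u * (1 - g) * N = W := by rw [hN]; exact mul_div_cancel₀ W hK.ne' 
  have hqN : u * (1 - g ^ 2) * N = (1 + g) * W := by rw [← hNW]; ring
  have B1 : u * (1 - g ^ 2) * |b| ≤ u * (1 - g ^ 2) * N - |a| * (1 - u ^ 2 * g ^ 2) -
      |d| * (g * (1 - u ^ 2)) := by
    rw [hqN]
    have := mul_le_mul_of_nonneg_left Z2 hg0.le
    linarith
  have B2 : u * (1 - g ^ 2) * |c| ≤ u * (1 - g ^ 2) * N - |a| * (g * (1 - u ^ 2)) -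
      |d| * (1 - u ^ 2 * g ^ 2) := by
    rw [hqN]
    have := mul_le_mul_of_nonneg_left Z1 hg0.le
    linarith
  have main : ‖T‖ ≤ N := by
    have hN0 : 0 ≤ N := by
      rw [hN]
      refine div_nonneg ?_ hK.le
      rw [hW]; positivity
    refine ContinuousLinearMap.opNorm_le_bound T hN0 fun x => ?_
    have hx : ‖vec P |x 0| |x 1|‖ = ‖x‖ :=
      le_antisymm (norm_mono hp0 hPp _ _ (by simp) (by simp))
        (norm_mono hp0 hPp _ _ (by simp) (by simp))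
    rw [← hx]
    have hT : ‖T x‖ ≤ ‖vec P (|a| * |x 0| + |b| * |x 1|) (|c| * |x 0| + |d| * |x 1|)‖ := by
      refine norm_mono hp0 hPp _ _ ?_ ?_
      · rw [vec0, T_coord, ← ha, ← hb]
        refine le_trans ?_ (le_abs_self _)
        rw [← abs_mul, ← abs_mul]
        exact abs_add_le _ _
      · rw [vec1, T_coord, ← hc, ← hd]
        refine le_trans ?_ (le_abs_self _)
        rw [← abs_mul, ← abs_mul]
        exact abs_add_le _ _
    refine hT.trans ?_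
    rcases le_total |d| |a| with h | h
    · exact key hp hPp hu0 hu1 hg0 hg1 hcond h (abs_nonneg _) (abs_nonneg _) (abs_nonneg _)
        (abs_nonneg _) (abs_nonneg _) B1 B2
    · have h7 := key (P := P) hp hPp hu0 hu1 hg0 hg1 hcond (x := |x 1|) (y := |x 0|) h (abs_nonneg _)
        (abs_nonneg c) (abs_nonneg b) (abs_nonneg _) (abs_nonneg _) (N := N) (by linarith)
        (by linarith)
      have sw : ∀ s t : ℝ, ‖vec P s t‖ = ‖vec P t s‖ := fun s t =>
        le_antisymm (norm_vec_le hp0 hPp (by rw [add_comm])) (norm_vec_le hp0 hPp (by rw [add_comm]))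
      rw [sw, sw |x 0|]
      have e1 : |c| * |x 0| + |d| * |x 1| = |d| * |x 1| + |c| * |x 0| := by ring
      have e2 : |a| * |x 0| + |b| * |x 1| = |b| * |x 1| + |a| * |x 0| := by ring
      rw [e1, e2]
      exact h7
  have hden : 0 < 1 + u ^ 2 * g := by positivity
  calc u * (1 - g) / (1 + u ^ 2 * g) * ‖T‖ ≤ u * (1 - g) / (1 + u ^ 2 * g) * N :=
        mul_le_mul_of_nonneg_left main (div_nonneg hK.le hden.le)
    _ = V := by
        rw [div_mul_eq_mul_div, hNW, hW]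
        field_simp

end Pool.Agent.Y772.NI
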