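import Pool.Agent.Y772.NI.Est
import Pool.Agent.Y772.NI.Two

/-!
# Real `ℓ_p(ι)`, `p > 2`
-/

set_option autoImplicit false

namespace Pool.Agent.Y772.NI

open scoped ENNReal

variable {P : ℝ≥0∞} [Fact (1 ≤ P)]

instance nontriv2 : Nontrivial (lp (fun _ : Fin 2 => ℝ) P) := by
  refine ⟨⟨vec P 1 0, 0, fun h => ?_⟩⟩
  have h1 : vec P 1 0 0 = 1 := vec0 1 0
  rw [h] at h1
  exact zero_ne_one h1

section

variable {ι : Type} [DecidableEq ι]

omit [Fact (1 ≤ P)] in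
lemma sgl' (i j : ι) (c : ℝ) : (lp.single P i c : lp (fun _ : ι => ℝ) P) j = if j = i then c else 0 := by
  by_cases h : j = i
  · subst h
    rw [lp.single_apply_self, if_pos rfl]
  · rw [lp.single_apply_ne _ _ _ h, if_neg h]

omit [Fact (1 ≤ P)] [DecidableEq ι] in
lemma sum_le {p : ℝ} (hp : 0 < p) (hPp : P.toReal = p) (x : lp (fun _ : ι => ℝ) P) (s : Finset ι) :
    ∑ i ∈ s, |x i| ^ p ≤ ‖x‖ ^ p := by
  have h := lp.sum_rpow_le_norm_rpow (by rw [hPp]; exact hp) x s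
  rw [hPp] at h
  exact h

/-- The coordinate functional. -/
noncomputable def cf (P : ℝ≥0∞) [Fact (1 ≤ P)] (i : ι) : lp (fun _ : ι => ℝ) P →L[ℝ] ℝ :=
  lp.evalCLM ℝ (fun _ : ι => ℝ) P i

/-- The operator with the given matrix in three coordinates. -/
noncomputable def op3 (P : ℝ≥0∞) [Fact (1 ≤ P)] (i0 i1 i2 : ι) (t : Fin 3 → Fin 3 → ℝ) :
    lp (fun _ : ι => ℝ) P →L[ℝ] lp (fun _ : ι => ℝ) P :=
  (t 0 0 • cf P i0 + t 0 1 • cf P i1 + t 0 2 • cf P i2).smulRight (lp.single P i0 1) +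
  (t 1 0 • cf P i0 + t 1 1 • cf P i1 + t 1 2 • cf P i2).smulRight (lp.single P i1 1) +
  (t 2 0 • cf P i0 + t 2 1 • cf P i1 + t 2 2 • cf P i2).smulRight (lp.single P i2 1)

lemma op3_apply (i0 i1 i2 : ι) (t : Fin 3 → Fin 3 → ℝ) (x : lp (fun _ : ι => ℝ) P) :
    op3 P i0 i1 i2 t x =
      (t 0 0 * x i0 + t 0 1 * x i1 + t 0 2 * x i2) • lp.single P i0 1 +
      (t 1 0 * x i0 + t 1 1 * x i1 + t 1 2 * x i2) • lp.single P i1 1 +
      (t 2 0 * x i0 + t 2 1 * x i1 + t 2 2 * x i2) • lp.single P i2 1 := rfl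

/-- value of a state -/
lemma op3_state {p : ℝ} (hp : 1 < p) (hPp : P.toReal = p) (i0 i1 i2 : ι) (t : Fin 3 → Fin 3 → ℝ)
    (x : lp (fun _ : ι => ℝ) P) (f : lp (fun _ : ι => ℝ) P →L[ℝ] ℝ) (hx : ‖x‖ = 1) (hf : ‖f‖ = 1)
    (hfx : f x = 1) : f (op3 P i0 i1 i2 t x) =
      (t 0 0 * x i0 + t 0 1 * x i1 + t 0 2 * x i2) * J p (x i0) +
      (t 1 0 * x i0 + t 1 1 * x i1 + t 1 2 * x i2) * J p (x i1) +
      (t 2 0 * x i0 + t 2 1 * x i1 + t 2 2 * x i2) * J p (x i2) := by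
  have hc := state_coord hp hPp x hx f hf hfx
  rw [op3_apply, map_add, map_add, map_smul, map_smul, map_smul, hc, hc, hc]
  simp only [smul_eq_mul]

/-- the vector with three given coordinates -/
noncomputable def vec3 (P : ℝ≥0∞) (i0 i1 i2 : ι) (a b c : ℝ) : lp (fun _ : ι => ℝ) P :=
  lp.single P i2 c + lp.single P i1 b + lp.single P i0 a

omit [Fact (1 ≤ P)] in
lemma vec3_coord {i0 i1 i2 : ι} (h01 : i0 ≠ i1) (h02 : i0 ≠ i2) (h12 : i1 ≠ i2) (a b c : ℝ) :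
    vec3 P i0 i1 i2 a b c i0 = a ∧ vec3 P i0 i1 i2 a b c i1 = b ∧ vec3 P i0 i1 i2 a b c i2 = c := by
  unfold vec3
  refine ⟨?_, ?_, ?_⟩
  · rw [lp.coeFn_add, lp.coeFn_add, Pi.add_apply, Pi.add_apply, sgl', sgl', sgl', if_neg h02,
      if_neg h01, if_pos rfl]
    ring
  · rw [lp.coeFn_add, lp.coeFn_add, Pi.add_apply, Pi.add_apply, sgl', sgl', sgl', if_neg h12,
      if_pos rfl, if_neg h01.symm]
    ring
  · rw [lp.coeFn_add, lp.coeFn_add, Pi.add_apply, Pi.add_apply, sgl', sgl', sgl', if_pos rfl,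
      if_neg h12.symm, if_neg h02.symm]
    ring

omit [Fact (1 ≤ P)] in
lemma vec3_norm {p : ℝ} (hp : 0 < p) (hPp : P.toReal = p) {i0 i1 i2 : ι} (h01 : i0 ≠ i1)
    (h02 : i0 ≠ i2) (h12 : i1 ≠ i2) (a b c : ℝ) :
    ‖vec3 P i0 i1 i2 a b c‖ ^ p = |a| ^ p + |b| ^ p + |c| ^ p := by
  have hP : 0 < P.toReal := by rw [hPp]; exact hp
  have hP0 : P ≠ 0 := by
    intro h; rw [h] at hP; simp at hP
  have a1 := norm_add_single hP (lp.single P i2 c : lp (fun _ : ι => ℝ) P) i1 b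
  have a2 := norm_add_single hP (lp.single P i2 c + lp.single P i1 b : lp (fun _ : ι => ℝ) P) i0 a
  have b1 : (lp.single P i2 c : lp (fun _ : ι => ℝ) P) i1 = 0 := by rw [sgl', if_neg h12]
  have b2 : (lp.single P i2 c + lp.single P i1 b : lp (fun _ : ι => ℝ) P) i0 = 0 := by
    rw [lp.coeFn_add, Pi.add_apply, sgl', sgl', if_neg h02, if_neg h01, add_zero]
  have b3 : ‖(lp.single P i2 c : lp (fun _ : ι => ℝ) P)‖ = |c| := by
    rw [lp.norm_single (pos_iff_ne_zero.mpr hP0)]; rfl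
  rw [b1, b3] at a1
  rw [b2, a1] at a2
  unfold vec3
  rw [hPp] at a2
  rw [a2, abs_zero, Real.zero_rpow hp.ne']
  simp only [zero_add]
  ring

/-- lower bound of the norm by a test vector -/
lemma op3_norm {p : ℝ} (hp : 0 < p) (hPp : P.toReal = p) {i0 i1 i2 : ι} (h01 : i0 ≠ i1)
    (h02 : i0 ≠ i2) (h12 : i1 ≠ i2) (t : Fin 3 → Fin 3 → ℝ) (a b c : ℝ) :
    |t 0 0 * a + t 0 1 * b + t 0 2 * c| ^ p + |t 1 0 * a + t 1 1 * b + t 1 2 * c| ^ p +
      |t 2 0 * a + t 2 1 * b + t 2 2 * c| ^ p ≤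
        ‖op3 P i0 i1 i2 t‖ ^ p * (|a| ^ p + |b| ^ p + |c| ^ p) := by
  have h1 := (op3 P i0 i1 i2 t).le_opNorm (vec3 P i0 i1 i2 a b c)
  obtain ⟨e0, e1, e2⟩ := vec3_coord (P := P) h01 h02 h12 a b c
  have h2 : ‖op3 P i0 i1 i2 t (vec3 P i0 i1 i2 a b c)‖ ^ p ≤
      (‖op3 P i0 i1 i2 t‖ * ‖vec3 P i0 i1 i2 a b c‖) ^ p :=
    Real.rpow_le_rpow (norm_nonneg _) h1 hp.le
  rw [Real.mul_rpow (norm_nonneg _) (norm_nonneg _), vec3_norm hp hPp h01 h02 h12] at h2
  refine le_trans ?_ h2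
  have h3 := sum_le hp hPp (op3 P i0 i1 i2 t (vec3 P i0 i1 i2 a b c)) {i0, i1, i2}
  rw [Finset.sum_insert (by simp [h01, h02]), Finset.sum_insert (by simp [h12]),
    Finset.sum_singleton] at h3
  refine le_trans (le_of_eq ?_) h3
  rw [op3_apply, e0, e1, e2, lp.coeFn_add, lp.coeFn_add, lp.coeFn_smul, lp.coeFn_smul,
        lp.coeFn_smul]
  simp only [Pi.add_apply, Pi.smul_apply, sgl', if_neg h01, if_neg h02, if_neg h01.symm,
    if_neg h12, if_neg h02.symm, if_neg h12.symm, if_true, smul_eq_mul]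
  ring_nf

end

/-- **The plane.** `n(ℓ_p^2) = M_p` for real scalars and `p > 2` -/
theorem index_two {p : ℝ} (hp : 2 < p) (hPp : P.toReal = p) :
    numIndex ℝ (lp (fun _ : Fin 2 => ℝ) P) = bigM p := by
  obtain ⟨u, h⟩ := exists_crit hp
  refine le_antisymm ?_ ?_
  · -- the rotation
    set T : lp (fun _ : Fin 2 => ℝ) P →L[ℝ] lp (fun _ : Fin 2 => ℝ) P :=
      (-(cf P (1 : Fin 2))).smulRight (lp.single P 0 1) +
        (cf P (0 : Fin 2)).smulRight (lp.single P 1 1) with hT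
    have hTa : ∀ x, T x = (-(x 1)) • lp.single P 0 1 + (x 0) • lp.single P 1 1 := fun x => rfl
    have hP0 : 0 < P := by
      rcases eq_or_ne P 0 with h0 | h0
      · rw [h0] at hPp; simp at hPp; linarith
      · exact pos_iff_ne_zero.mpr h0
    have h := numIndex_le T (bigM p) 1 h.M0.le (by norm_num) ?_ ?_
    · rwa [div_one] at h
    · have h1 := T.le_opNorm (lp.single P 0 1)
      have h2 : T (lp.single P 0 1) = lp.single P 1 1 := by
        rw [hTa, sgl', sgl', if_neg (by decide), if_pos rfl]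
        simp
      rw [h2, lp.norm_single hP0, lp.norm_single hP0, mul_comm] at h1
      simpa using h1
    · intro x f hx hf hfx
      have hc := state_coord (by linarith) hPp x hx f hf hfx
      rw [hTa, map_add, map_smul, map_smul, hc, hc]
      simp only [smul_eq_mul]
      have h3 := norm2 (by linarith) hPp x
      rw [hx, Real.one_rpow] at h3
      have n1 := h_nonneg h hp (x 1) (x 0)
      have n2 := h_nonneg h hp (x 0) (x 1)
      rw [add_comm, ← h3, mul_one] at n1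
      rw [← h3, mul_one] at n2
      rw [abs_le]
      constructor <;> linarith
  · refine le_numIndex _ fun T => ?_
    have hg0 : 0 < u ^ (p - 2) := Real.rpow_pos_of_pos h.u0 _
    have hg1 : u ^ (p - 2) < 1 := Real.rpow_lt_one h.u0.le h.u1 (by linarith)
    have h1 := norm_le (by linarith) hPp h.u0 h.u1 hg0 hg1 rfl (h.cond hp rfl) T
    have e : bigM p = u * (1 - u ^ (p - 2)) / (1 + u ^ 2 * u ^ (p - 2)) := by
      have hne : 1 + u ^ 2 * u ^ (p - 2) ≠ 0 := by positivity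
      rw [eq_div_iff hne]
      have h2 := h.eq
      obtain ⟨e1, e2⟩ := h.pows
      rw [e1, e2] at h2
      linarith
    rw [e]
    exact h1

end Pool.Agent.Y772.NI
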