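import Mathlib

/-!
# The number `M_p`, `p > 2`
-/

set_option autoImplicit false

namespace Pool.Agent.Y772.NI

open Set

/-- The number `M_p = sup_{t ∈ [0,1]} |t^{p-1} - t| / (1 + t^p)`. -/
noncomputable def bigM (p : ℝ) : ℝ :=
  sSup ((fun t : ℝ => |t ^ (p - 1) - t| / (1 + t ^ p)) '' Icc 0 1)

lemma bern1 {s t r : ℝ} (hs : 0 < s) (ht : 0 ≤ t) (hr : 1 ≤ r) :
    s ^ r + r * s ^ (r - 1) * (t - s) ≤ t ^ r := by
  have h1 : -1 ≤ t / s - 1 := by have := div_nonneg ht hs.le; linarith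
  have h2 := one_add_mul_self_le_rpow_one_add h1 hr
  have h3 : t ^ r = s ^ r * (1 + (t / s - 1)) ^ r := by
    rw [← Real.mul_rpow hs.le (by linarith [div_nonneg ht hs.le])]
    congr 1; field_simp; ring
  have h4 : s ^ r = s ^ (r - 1) * s := by
    rw [← Real.rpow_add_one hs.ne']; congr 1; ring
  rw [h3]
  have h5 := mul_le_mul_of_nonneg_left h2 (Real.rpow_nonneg hs.le r)
  refine le_trans (le_of_eq ?_) h5
  have h6 : s ^ r * (1 + r * (t / s - 1)) = s ^ r + r * (s ^ r * (t / s - 1)) := by ring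
  rw [h6]
  congr 1
  rw [mul_assoc]
  congr 1
  rw [h4]; field_simp

lemma bern2 {s t r : ℝ} (hs : 0 < s) (ht : 0 ≤ t) (hr : 2 ≤ r) :
    s ^ r + r * s ^ (r - 1) * (t - s) + r / 2 * s ^ (r - 2) * (t - s) ^ 2 ≤ t ^ r := by
  have h1 := bern1 (s := s ^ 2) (t := t ^ 2) (r := r / 2) (by positivity) (by positivity)
    (by linarith)
  have e1 : (s ^ 2) ^ (r / 2) = s ^ r := by
    rw [← Real.rpow_natCast, ← Real.rpow_mul hs.le]; congr 1; push_cast; ring
  have e2 : (t ^ 2) ^ (r / 2) = t ^ r := by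
    rw [← Real.rpow_natCast, ← Real.rpow_mul ht]; congr 1; push_cast; ring
  have e3 : (s ^ 2) ^ (r / 2 - 1) = s ^ (r - 2) := by
    rw [← Real.rpow_natCast, ← Real.rpow_mul hs.le]; congr 1; push_cast; ring
  have e4 : s ^ (r - 1) = s ^ (r - 2) * s := by
    rw [← Real.rpow_add_one hs.ne']; congr 1; ring
  rw [e1, e2, e3] at h1
  rw [e4]
  linarith

/-- the facts about the critical point -/
structure Crit (p M u : ℝ) : Prop where
  u0 : 0 < u
  u1 : u < 1
  M0 : 0 < M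
  eq : M * (1 + u ^ p) = u - u ^ (p - 1)
  crit : M * (p * u ^ (p - 1)) - 1 + (p - 1) * u ^ (p - 2) = 0

theorem exists_crit {p : ℝ} (hp : 2 < p) : ∃ u, Crit p (bigM p) u := by
  set f : ℝ → ℝ := fun t => |t ^ (p - 1) - t| / (1 + t ^ p) with hf
  have hden : ∀ t ∈ Icc (0:ℝ) 1, 0 < 1 + t ^ p := fun t ht => by
    have := Real.rpow_nonneg ht.1 p
    linarith
  have hcont : ContinuousOn f (Icc 0 1) := by
    have c1 : Continuous fun t : ℝ => t ^ (p - 1) := Real.continuous_rpow_const (by linarith)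
    have c2 : Continuous fun t : ℝ => t ^ p := Real.continuous_rpow_const (by linarith)
    exact ((c1.sub continuous_id).abs.continuousOn).div (continuous_const.add c2).continuousOn
      fun t ht => (hden t ht).ne'
  obtain ⟨u, hu, hmax⟩ := isCompact_Icc.exists_isMaxOn (nonempty_Icc.mpr zero_le_one) hcont
  have hM : bigM p = f u := by
    unfold bigM
    refine le_antisymm (csSup_le (Nonempty.image _ (nonempty_Icc.mpr zero_le_one)) ?_) ?_
    · rintro _ ⟨t, ht, rfl⟩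
      exact hmax ht
    · exact le_csSup ⟨f u, by rintro _ ⟨t, ht, rfl⟩; exact hmax ht⟩ ⟨u, hu, rfl⟩
  have hsmall : ∀ t : ℝ, 0 ≤ t → t ≤ 1 → t ^ (p - 1) ≤ t := fun t h0 h1 => by
    rcases h0.eq_or_lt with h | h
    · rw [← h, Real.zero_rpow (by linarith)]
    · calc t ^ (p - 1) ≤ t ^ (1 : ℝ) := Real.rpow_le_rpow_of_exponent_ge h h1 (by linarith)
        _ = t := Real.rpow_one t
  have habs : ∀ t : ℝ, 0 ≤ t → t ≤ 1 → f t = (t - t ^ (p - 1)) / (1 + t ^ p) := fun t h0 h1 => by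
    simp only [hf]
    rw [abs_sub_comm, abs_of_nonneg (by linarith [hsmall t h0 h1])]
  have hM0 : 0 < bigM p := by
    rw [hM]
    have h1 : 0 < f (1 / 2) := by
      rw [habs _ (by norm_num) (by norm_num)]
      refine div_pos ?_ (hden _ ⟨by norm_num, by norm_num⟩)
      have : (1 / 2 : ℝ) ^ (p - 1) < (1 / 2) ^ (1 : ℝ) :=
        Real.rpow_lt_rpow_of_exponent_gt (by norm_num) (by norm_num) (by linarith)
      rw [Real.rpow_one] at this
      linarith
    exact h1.trans_le (hmax ⟨by norm_num, by norm_num⟩)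
  have hu0 : 0 < u := by
    rcases hu.1.eq_or_lt with h | h
    · exfalso
      rw [hM, habs u hu.1 hu.2, ← h, Real.zero_rpow (by linarith)] at hM0
      simp at hM0
    · exact h
  have hu1 : u < 1 := by
    rcases hu.2.eq_or_lt with h | h
    · exfalso
      rw [hM, habs u hu.1 hu.2, h, Real.one_rpow] at hM0
      simp at hM0
    · exact h
  have heq : bigM p * (1 + u ^ p) = u - u ^ (p - 1) := by
    rw [hM, habs u hu.1 hu.2, div_mul_cancel₀ _ (hden u hu).ne']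
  refine ⟨u, hu0, hu1, hM0, heq, ?_⟩
  -- critical equation
  set m : ℝ → ℝ := fun t => bigM p * (1 + t ^ p) - t + t ^ (p - 1) with hm
  have hmn : ∀ t : ℝ, 0 ≤ t → t ≤ 1 → 0 ≤ m t := by
    intro t h0 h1
    have h2 : f t ≤ bigM p := by rw [hM]; exact hmax ⟨h0, h1⟩
    rw [habs t h0 h1, div_le_iff₀ (hden t ⟨h0, h1⟩)] at h2
    simp only [hm]; linarith
  have hmin : IsLocalMin m u := by
    have hnb : Ioo (0:ℝ) 1 ∈ nhds u := Ioo_mem_nhds hu0 hu1
    refine Filter.mem_of_superset hnb fun t ht => ?_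
    have h1 : m u = 0 := by simp only [hm]; linarith
    change m u ≤ m t
    rw [h1]; exact hmn t ht.1.le ht.2.le
  have hd : HasDerivAt m (bigM p * (p * u ^ (p - 1)) - 1 + (p - 1) * u ^ (p - 1 - 1)) u := by
    have d1 := Real.hasDerivAt_rpow_const (x := u) (p := p) (Or.inl hu0.ne')
    have d2 := Real.hasDerivAt_rpow_const (x := u) (p := p - 1) (Or.inl hu0.ne')
    exact (((d1.const_add 1).const_mul (bigM p)).sub (hasDerivAt_id u)).add d2
  have h0 := hmin.hasDerivAt_eq_zero hd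
  rw [← h0]
  congr 3
  ring

variable {p M u : ℝ}

/-- `M (1 + t^p) - t + t^{p-1} ≥ c (t - u)²` -/
lemma Crit.quad (h : Crit p M u) (hp : 2 < p) {t : ℝ} (ht : 0 ≤ t) :
    M * p / 2 * u ^ (p - 2) * (t - u) ^ 2 ≤ M * (1 + t ^ p) - t + t ^ (p - 1) := by
  have h1 := bern2 h.u0 ht hp.le
  have h2 := bern1 h.u0 ht (show 1 ≤ p - 1 by linarith)
  have h3 := mul_le_mul_of_nonneg_left h1 h.M0.le
  have e : p - 1 - 1 = p - 2 := by ring
  rw [e] at h2
  have h4 := h.eq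
  have h5 := h.crit
  have h6 : (M * (p * u ^ (p - 1)) - 1 + (p - 1) * u ^ (p - 2)) * (t - u) = 0 := by
    rw [h5, zero_mul]
  linarith

/-- the powers of the critical point -/
lemma Crit.pows (h : Crit p M u) : u ^ (p - 1) = u ^ (p - 2) * u ∧ u ^ p = u ^ (p - 2) * u ^ 2 := by
  constructor
  · rw [← Real.rpow_add_one h.u0.ne']; congr 1; ring
  · rw [← Real.rpow_natCast u 2, ← Real.rpow_add h.u0]; congr 1; push_cast; ring

lemma Crit.g1 (h : Crit p M u) (hp : 2 < p) : (p - 1) * u ^ (p - 2) < 1 := by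
  have h1 := h.crit
  have h2 : 0 < M * (p * u ^ (p - 1)) :=
    mul_pos h.M0 (mul_pos (by linarith) (Real.rpow_pos_of_pos h.u0 _))
  linarith

lemma Crit.u2 (h : Crit p M u) (hp : 2 < p) : u ^ 2 ≤ (p - 1) / (p + 1) := by
  by_contra hcon
  rw [not_le] at hcon
  have hg := h.g1 hp
  have hp1 : 0 < p - 1 := by linarith
  have hr : 0 < (p - 1) / (p + 1) := div_pos hp1 (by linarith)
  have e1 : u ^ (p - 2) = (u ^ 2) ^ ((p - 2) / 2) := by
    rw [← Real.rpow_natCast, ← Real.rpow_mul h.u0.le]; congr 1; push_cast; ring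
  have h1 : ((p - 1) / (p + 1)) ^ ((p - 2) / 2) ≤ u ^ (p - 2) := by
    rw [e1]
    exact Real.rpow_le_rpow hr.le hcon.le (by linarith)
  -- logarithms
  have h2 : Real.exp (-(Real.log (p - 1))) ≤ ((p - 1) / (p + 1)) ^ ((p - 2) / 2) := by
    rw [Real.rpow_def_of_pos hr]
    refine Real.exp_le_exp.mpr ?_
    have e2 : (p - 1) / (p + 1) = (1 + 2 / (p - 1))⁻¹ := by field_simp; ring
    have h3 : Real.log (1 + 2 / (p - 1)) ≤ 2 / (p - 1) := by
      have := Real.log_le_sub_one_of_pos (show 0 < 1 + 2 / (p - 1) by positivity)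
      linarith
    have h4 : 1 - (p - 1)⁻¹ ≤ Real.log (p - 1) := Real.one_sub_inv_le_log_of_pos hp1
    rw [e2, Real.log_inv]
    have h5 : Real.log (1 + 2 / (p - 1)) * ((p - 2) / 2) ≤ 2 / (p - 1) * ((p - 2) / 2) :=
      mul_le_mul_of_nonneg_right h3 (by linarith)
    have h6 : 2 / (p - 1) * ((p - 2) / 2) = 1 - (p - 1)⁻¹ := by field_simp; ring
    linarith
  rw [Real.exp_neg, Real.exp_log hp1] at h2
  have h7 : (p - 1) * (p - 1)⁻¹ ≤ (p - 1) * u ^ (p - 2) :=
    mul_le_mul_of_nonneg_left (h2.trans h1) hp1.le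
  rw [mul_inv_cancel₀ hp1.ne'] at h7
  linarith

/-- the condition of the plane -/
lemma Crit.cond (h : Crit p M u) (hp : 2 < p) {g : ℝ} (hg : u ^ (p - 2) = g) :
    (u * (1 - g ^ 2) / (1 - u ^ 2 * g ^ 2)) ^ p +
      ((1 - g) * (1 + u ^ 2 * g) / (1 - u ^ 2 * g ^ 2)) ^ p ≤ 1 := by
  have hu0 := h.u0
  have hu1 := h.u1
  have hg0 : 0 < g := by rw [← hg]; exact Real.rpow_pos_of_pos hu0 _
  have hg1 : (p - 1) * g < 1 := by rw [← hg]; exact h.g1 hp
  have hg1' : g < 1 := by nlinarith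
  have hu2 := h.u2 hp
  have hp1 : 0 < p + 1 := by linarith
  have hu2' : u ^ 2 < 1 := by nlinarith
  rw [le_div_iff₀ hp1] at hu2
  have hug : u ^ 2 * g < 1 := by nlinarith [pow_pos hu0 2]
  have hg2 : g ^ 2 < 1 := by nlinarith
  have hκ : 0 < 1 - u ^ 2 * g ^ 2 := by nlinarith [pow_pos hu0 2, pow_pos hg0 2]
  have hup : u ^ p = u ^ 2 * g := by rw [h.pows.2, hg, mul_comm]
  -- first term
  have a1 : (u * (1 - g ^ 2) / (1 - u ^ 2 * g ^ 2)) ^ p ≤ u ^ 2 * g := by
    rw [← hup]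
    refine Real.rpow_le_rpow (div_nonneg (mul_nonneg hu0.le (by linarith)) hκ.le) ?_ (by linarith)
    rw [div_le_iff₀ hκ]
    refine mul_le_mul_of_nonneg_left ?_ hu0.le
    nlinarith [pow_pos hg0 2]
  -- second term
  have hδ1 : g * (1 - u ^ 2) < 1 := by nlinarith [pow_pos hu0 2]
  have a2 : (1 - g) * (1 + u ^ 2 * g) / (1 - u ^ 2 * g ^ 2) ≤ 1 - g * (1 - u ^ 2) := by
    rw [div_le_iff₀ hκ]
    have e : (1 - g * (1 - u ^ 2)) * (1 - u ^ 2 * g ^ 2) - (1 - g) * (1 + u ^ 2 * g) =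
        u ^ 2 * g ^ 3 * (1 - u ^ 2) := by ring
    have : 0 ≤ u ^ 2 * g ^ 3 * (1 - u ^ 2) :=
      mul_nonneg (by positivity) (by linarith)
    linarith
  have a20 : 0 ≤ (1 - g) * (1 + u ^ 2 * g) / (1 - u ^ 2 * g ^ 2) :=
    div_nonneg (mul_nonneg (by linarith) (by positivity)) hκ.le
  set x : ℝ := g * (1 - u ^ 2) with hx
  have hx0 : 0 < x := mul_pos hg0 (by linarith)
  have a3 : (1 - x) ^ p ≤ (1 + p * x)⁻¹ := by
    have b1 : 1 + p * (x / (1 - x)) ≤ (1 + x / (1 - x)) ^ p :=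
      one_add_mul_self_le_rpow_one_add (by
        have : 0 ≤ x / (1 - x) := div_nonneg hx0.le (by linarith)
        linarith) (by linarith)
    have b2 : 1 + x / (1 - x) = (1 - x)⁻¹ := by
      have : 1 - x ≠ 0 := by linarith
      field_simp; ring
    rw [b2, Real.inv_rpow (by linarith)] at b1
    have b3 : 1 + p * x ≤ 1 + p * (x / (1 - x)) := by
      have : x ≤ x / (1 - x) := by
        rw [le_div_iff₀ (by linarith)]; nlinarith
      have := mul_le_mul_of_nonneg_left this (show 0 ≤ p by linarith)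
      linarith
    have b4 : 0 < 1 + p * x := by positivity
    have b5 := inv_anti₀ b4 (b3.trans b1)
    rwa [inv_inv] at b5
  have a4 : (1 + p * x)⁻¹ ≤ 1 - u ^ 2 * g := by
    have b4 : 0 < 1 + p * x := by positivity
    rw [inv_le_iff_one_le_mul₀ b4]
    -- p (1 - u²)(1 - u² g) ≥ u²
    have c1 : 2 ≤ (p + 1) * (1 - u ^ 2) := by linarith
    have c2 : (p + 1) * (u ^ 2 * g) ≤ 1 := by
      have : (p + 1) * (u ^ 2 * g) = u ^ 2 * (p + 1) * g := by ring
      rw [this]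
      calc u ^ 2 * (p + 1) * g ≤ (p - 1) * g := mul_le_mul_of_nonneg_right hu2 hg0.le
        _ ≤ 1 := hg1.le
    have c3 : u ^ 2 ≤ p * (1 - u ^ 2) * (1 - u ^ 2 * g) := by
      have d1 : p ≤ (p + 1) * (1 - u ^ 2 * g) := by linarith
      have d2 : 2 * p ≤ (p + 1) * (1 - u ^ 2) * p := by nlinarith
      have d3 : (p + 1) * (1 - u ^ 2) * p * p ≤
          (p + 1) * (1 - u ^ 2) * p * ((p + 1) * (1 - u ^ 2 * g)) := by
        refine mul_le_mul_of_nonneg_left d1 ?_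
        nlinarith
      have d4 : (p + 1) ^ 2 * u ^ 2 ≤ (p + 1) ^ 2 * (p * (1 - u ^ 2) * (1 - u ^ 2 * g)) := by
        have e1 : (p + 1) ^ 2 * u ^ 2 = (p + 1) * (u ^ 2 * (p + 1)) := by ring
        have e2 : (p + 1) * (u ^ 2 * (p + 1)) ≤ (p + 1) * (p - 1) :=
          mul_le_mul_of_nonneg_left hu2 hp1.le
        have e3 : 2 * p * p ≤ (p + 1) * (1 - u ^ 2) * p * p :=
          mul_le_mul_of_nonneg_right d2 (by linarith)
        nlinarith
      exact le_of_mul_le_mul_left d4 (by positivity)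
    have c4 : (1 - u ^ 2 * g) * (1 + p * x) - 1 = g * (p * (1 - u ^ 2) * (1 - u ^ 2 * g) - u ^ 2) := by
      rw [hx]; ring
    have c5 : 0 ≤ g * (p * (1 - u ^ 2) * (1 - u ^ 2 * g) - u ^ 2) :=
      mul_nonneg hg0.le (by linarith)
    linarith
  have a5 : ((1 - g) * (1 + u ^ 2 * g) / (1 - u ^ 2 * g ^ 2)) ^ p ≤ 1 - u ^ 2 * g :=
    (Real.rpow_le_rpow a20 a2 (by linarith)).trans (a3.trans a4)
  linarith

end Pool.Agent.Y772.NI
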