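import Pool.Agent.Y772.NI.Below

/-!
# The case `1 < p < 2` by duality
-/

set_option autoImplicit false

namespace Pool.Agent.Y772.NI

open scoped ENNReal Topology
open Set

/-! ### conjugate exponents -/

lemma J_pos' {p x : ℝ} (hp : 1 < p) (hx : 0 ≤ x) : J p x = x ^ (p - 1) := by
  unfold J
  rw [abs_of_nonneg hx]
  rcases hx.eq_or_lt with h | h
  · rw [← h, mul_zero, Real.zero_rpow (by linarith)]
  · rw [← Real.rpow_add_one h.ne']; congr 1; ring

lemma abs_J' {p x : ℝ} (hp : 1 < p) : |J p x| = |x| ^ (p - 1) := by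
  unfold J
  rw [abs_mul, abs_of_nonneg (Real.rpow_nonneg (abs_nonneg x) _)]
  rcases (abs_nonneg x).eq_or_lt with h | h
  · rw [← h, mul_zero, Real.zero_rpow (by linarith)]
  · rw [← Real.rpow_add_one h.ne']; congr 1; ring

/-- the conjugate exponent -/
structure Cj (p q : ℝ) : Prop where
  p1 : 1 < p
  q2 : 2 < q
  e1 : (p - 1) * (q - 1) = 1
  e2 : (p - 1) * q = p
  e3 : (q - 1) * p = q

lemma cj {p : ℝ} (h1 : 1 < p) (h2 : p < 2) : Cj p (p / (p - 1)) := by
  have h0 : 0 < p - 1 := by linarith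
  have hne : p - 1 ≠ 0 := h0.ne'
  refine ⟨h1, ?_, ?_, ?_, ?_⟩
  · rw [lt_div_iff₀ h0]; linarith
  · field_simp; ring
  · field_simp
  · field_simp; ring

variable {p q : ℝ}

lemma Cj.JJ (h : Cj p q) (x : ℝ) : J q (J p x) = x := by
  have main : ∀ y : ℝ, 0 ≤ y → J q (J p y) = y := by
    intro y hy
    rw [J_pos' h.p1 hy, J_pos' (by linarith [h.q2]) (Real.rpow_nonneg hy _), ← Real.rpow_mul hy, h.e1,
      Real.rpow_one]
  rcases le_total 0 x with hx | hx
  · exact main x hx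
  · obtain ⟨y, rfl⟩ : ∃ y, x = -y := ⟨-x, by ring⟩
    rw [J_neg, J_neg, main y (by linarith)]

lemma Cj.abs (h : Cj p q) (x : ℝ) : |J p x| ^ q = |x| ^ p := by
  rw [abs_J' h.p1, ← Real.rpow_mul (abs_nonneg x), h.e2]

lemma Cj.bigM (h : Cj p q) : bigM p = bigM q := by
  have hp := h.p1
  have hq := h.q2
  unfold Pool.Agent.Y772.NI.bigM
  congr 1
  ext r
  constructor
  · rintro ⟨t, ht, rfl⟩
    refine ⟨t ^ (p - 1), ⟨Real.rpow_nonneg ht.1 _, Real.rpow_le_one ht.1 ht.2 (by linarith)⟩, ?_⟩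
    change |(t ^ (p - 1)) ^ (q - 1) - t ^ (p - 1)| / (1 + (t ^ (p - 1)) ^ q) =
      |t ^ (p - 1) - t| / (1 + t ^ p)
    rw [← Real.rpow_mul ht.1, ← Real.rpow_mul ht.1, h.e1, h.e2, Real.rpow_one, abs_sub_comm]
  · rintro ⟨t, ht, rfl⟩
    refine ⟨t ^ (q - 1), ⟨Real.rpow_nonneg ht.1 _, Real.rpow_le_one ht.1 ht.2 (by linarith)⟩, ?_⟩
    change |(t ^ (q - 1)) ^ (p - 1) - t ^ (q - 1)| / (1 + (t ^ (q - 1)) ^ p) =
      |t ^ (q - 1) - t| / (1 + t ^ q)
    rw [← Real.rpow_mul ht.1, ← Real.rpow_mul ht.1, mul_comm (q - 1) (p - 1), h.e1, h.e3,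
      Real.rpow_one, abs_sub_comm]

variable {P : ℝ≥0∞} [Fact (1 ≤ P)]

/-! ### the plane -/

/-- Hölder in the plane -/
lemma holder2 (h : Cj p q) (hPp : P.toReal = p) {A G x y : ℝ} (hA : 0 ≤ A) (hG : 0 ≤ G) (hx : 0 ≤ x)
    (hy : 0 ≤ y) (hc : A ^ q + G ^ q ≤ 1) : A * x + G * y ≤ ‖vec P x y‖ := by
  have hp := h.p1
  have hq := h.q2
  have hpq : q.HolderConjugate p := by
    rw [Real.holderConjugate_iff]
    refine ⟨by linarith, ?_⟩
    have h1 : q ≠ 0 := by linarith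
    have h2 : p ≠ 0 := by linarith
    have := h.e2
    field_simp
    linarith
  have h1 := Real.inner_le_Lp_mul_Lq_of_nonneg (Finset.univ : Finset (Fin 2)) hpq
    (f := ![A, G]) (g := ![x, y]) (by
      intro i _; fin_cases i <;> simpa) (by intro i _; fin_cases i <;> simpa)
  simp only [Fin.sum_univ_two, Matrix.cons_val_zero, Matrix.cons_val_one] at h1
  have h2 : (A ^ q + G ^ q) ^ (1 / q) ≤ 1 :=
    Real.rpow_le_one (by positivity) hc (by positivity)
  have h3 : ‖vec P x y‖ = (x ^ p + y ^ p) ^ (1 / p) := by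
    have := norm_vec (by linarith) hPp x y
    rw [abs_of_nonneg hx, abs_of_nonneg hy] at this
    rw [← this, ← Real.rpow_mul (norm_nonneg _), mul_one_div_cancel (by linarith), Real.rpow_one]
  rw [h3]
  refine h1.trans (mul_le_of_le_one_left (by positivity) h2)

lemma key' {u g : ℝ} (hcj : Cj p q) (hPp : P.toReal = p) (hu0 : 0 < u) (hu1 : u < 1)
    (hg0 : 0 < g) (hg1 : g < 1)
    (hcond : (u * (1 - g ^ 2) / (1 - u ^ 2 * g ^ 2)) ^ q +
      ((1 - g) * (1 + u ^ 2 * g) / (1 - u ^ 2 * g ^ 2)) ^ q ≤ 1)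
    {A D b c N x y : ℝ} (hA : D ≤ A) (hD : 0 ≤ D) (hb0 : 0 ≤ b) (hc0 : 0 ≤ c) (hx : 0 ≤ x)
    (hy : 0 ≤ y)
    (hc : u * (1 - g ^ 2) * c ≤ u * (1 - g ^ 2) * N - A * (1 - u ^ 2 * g ^ 2) - D * (g * (1 - u ^ 2)))
    (hb : u * (1 - g ^ 2) * b ≤ u * (1 - g ^ 2) * N - A * (g * (1 - u ^ 2)) - D * (1 - u ^ 2 * g ^ 2)) :
    ‖vec P (A * x + b * y) (c * x + D * y)‖ ≤ N * ‖vec P x y‖ := by
  have hp0 : 0 < p := by linarith [hcj.p1]
  have hu2 : u ^ 2 < 1 := by nlinarith
  have hg2 : g ^ 2 < 1 := by nlinarith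
  have hug : u ^ 2 * g < 1 := by nlinarith [pow_pos hu0 2]
  have hug2 : u ^ 2 * g ^ 2 < 1 := by nlinarith [pow_pos hu0 2, pow_pos hg0 2]
  set κ : ℝ := 1 - u ^ 2 * g ^ 2 with hκ
  have hκ0 : 0 < κ := by rw [hκ]; linarith
  have hq : 0 < u * (1 - g ^ 2) := mul_pos hu0 (by linarith)
  set r : ℝ := u * (1 - g ^ 2) with hqd
  set A1 : ℝ := r / κ with hA1
  set γ1 : ℝ := (1 - g) * (1 + u ^ 2 * g) / κ with hγ1
  set s : ℝ := u * (1 - g) / (1 - u ^ 2 * g) with hs
  have hA10 : 0 < A1 := div_pos hq hκ0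
  have hγ10 : 0 ≤ γ1 := div_nonneg (mul_nonneg (by linarith) (by positivity)) hκ0.le
  have hs0 : 0 < s := div_pos (mul_pos hu0 (by linarith)) (by linarith)
  have hs1 : s ≤ 1 := by
    rw [hs, div_le_one (by linarith)]
    nlinarith [mul_pos hu0 hg0]
  -- the coefficients
  set μ1 : ℝ := (A - D) * κ / r with hμ1
  set μ3 : ℝ := D * (κ + g * (1 - u ^ 2)) / r with hμ3
  set μ0 : ℝ := N - μ1 - μ3 with hμ0
  have h1 : 0 ≤ μ1 := div_nonneg (mul_nonneg (by linarith) hκ0.le) hq.le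
  have h3 : 0 ≤ μ3 := div_nonneg (mul_nonneg hD (add_nonneg hκ0.le
    (mul_nonneg hg0.le (by linarith)))) hq.le
  have e0 : r * μ0 = r * N - A * κ - D * (g * (1 - u ^ 2)) := by
    rw [hμ0, hμ1, hμ3]
    field_simp
    ring
  have hcμ : c ≤ μ0 := by
    refine le_of_mul_le_mul_left ?_ hq
    rw [e0]; exact hc
  have h0 : 0 ≤ μ0 := hc0.trans hcμ
  have e5 : μ1 * A1 = A - D := by
    rw [hμ1, hA1]; field_simp
  have hne : (1 - u ^ 2 * g) ≠ 0 := by
    have : 0 < 1 - u ^ 2 * g := by linarith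
    exact this.ne'
  have e3 : κ + g * (1 - u ^ 2) = (1 + g) * (1 - u ^ 2 * g) := by rw [hκ]; ring
  have eD : μ3 * s = D := by
    rw [hμ3, hs, e3, div_mul_div_comm, div_eq_iff (mul_ne_zero hq.ne' hne), hqd]
    ring
  have eA : μ1 * A1 + μ3 * s = A := by rw [e5, eD]; ring
  have hbμ : b ≤ μ0 + μ1 * γ1 := by
    refine le_of_mul_le_mul_left ?_ hq
    rw [mul_add, e0]
    have : r * (μ1 * γ1) = (A - D) * ((1 - g) * (1 + u ^ 2 * g)) := by
      rw [hμ1, hγ1]; field_simp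
    rw [this]
    refine hb.trans (le_of_eq ?_)
    rw [hκ]; ring
  -- the three vectors
  have n0 : ‖vec P y x‖ = ‖vec P x y‖ :=
    le_antisymm (norm_vec_le hp0 hPp (by rw [add_comm])) (norm_vec_le hp0 hPp (by rw [add_comm]))
  have n1 : ‖vec P (A1 * x + γ1 * y) 0‖ ≤ ‖vec P x y‖ := by
    have hnn : 0 ≤ A1 * x + γ1 * y := by positivity
    have e : ‖vec P (A1 * x + γ1 * y) 0‖ = A1 * x + γ1 * y := by
      have := norm_vec hp0 hPp (A1 * x + γ1 * y) 0
      rw [abs_zero, Real.zero_rpow hp0.ne', add_zero, abs_of_nonneg hnn] at this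
      exact (Real.rpow_left_inj (norm_nonneg _) hnn hp0.ne').mp this
    rw [e]
    exact holder2 hcj hPp hA10.le hγ10 hx hy hcond
  have n3 : ‖vec P (s * x) (s * y)‖ ≤ ‖vec P x y‖ := by
    refine norm_vec_le hp0 hPp ?_
    rw [abs_mul, abs_mul, abs_of_nonneg hx, abs_of_nonneg hy, abs_of_pos hs0]
    have h5 : s * x ≤ x := mul_le_of_le_one_left hx hs1
    have h6 : s * y ≤ y := mul_le_of_le_one_left hy hs1
    gcongr
  calc ‖vec P (A * x + b * y) (c * x + D * y)‖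
      ≤ ‖μ0 • vec P y x + μ1 • vec P (A1 * x + γ1 * y) 0 + μ3 • vec P (s * x) (s * y)‖ := by
        refine norm_mono hp0 hPp _ _ ?_ ?_
        · rw [vec0, lp.coeFn_add, lp.coeFn_add, lp.coeFn_smul, lp.coeFn_smul, lp.coeFn_smul]
          simp only [Pi.add_apply, Pi.smul_apply, vec0, smul_eq_mul]
          have hl : 0 ≤ A * x + b * y := by
            have := mul_nonneg (hD.trans hA) hx
            have := mul_nonneg hb0 hy
            linarith
          rw [abs_of_nonneg hl]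
          refine le_trans ?_ (le_abs_self _)
          have : b * y ≤ (μ0 + μ1 * γ1) * y := mul_le_mul_of_nonneg_right hbμ hy
          have : A * x = μ1 * (A1 * x) + μ3 * (s * x) := by rw [← eA]; ring
          linarith
        · rw [vec1, lp.coeFn_add, lp.coeFn_add, lp.coeFn_smul, lp.coeFn_smul, lp.coeFn_smul]
          simp only [Pi.add_apply, Pi.smul_apply, vec1, smul_eq_mul]
          have hl : 0 ≤ c * x + D * y := by
            have := mul_nonneg hD hy
            have := mul_nonneg hc0 hx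
            linarith
          rw [abs_of_nonneg hl]
          refine le_trans ?_ (le_abs_self _)
          have : c * x ≤ μ0 * x := mul_le_mul_of_nonneg_right hcμ hx
          have : D * y = μ3 * (s * y) := by rw [← mul_assoc, eD]
          linarith
    _ ≤ μ0 * ‖vec P y x‖ + μ1 * ‖vec P (A1 * x + γ1 * y) 0‖ + μ3 * ‖vec P (s * x) (s * y)‖ := by
        refine (norm_add_le _ _).trans (add_le_add ((norm_add_le _ _).trans (add_le_add ?_ ?_)) ?_)
        · rw [norm_smul, Real.norm_of_nonneg h0]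
        · rw [norm_smul, Real.norm_of_nonneg h1]
        · rw [norm_smul, Real.norm_of_nonneg h3]
    _ ≤ μ0 * ‖vec P x y‖ + μ1 * ‖vec P x y‖ + μ3 * ‖vec P x y‖ := by
        rw [n0]; gcongr
    _ = N * ‖vec P x y‖ := by rw [hμ0]; ring

/-- **The main inequality in the plane**, `1 < p < 2`.  Here `g = u^(q-2)`. -/
theorem norm_le' {u g : ℝ} (hcj : Cj p q) (hPp : P.toReal = p) (hu0 : 0 < u) (hu1 : u < 1)
    (hg0 : 0 < g) (hg1 : g < 1) (hg : u ^ (q - 2) = g)
    (hcond : (u * (1 - g ^ 2) / (1 - u ^ 2 * g ^ 2)) ^ q +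
      ((1 - g) * (1 + u ^ 2 * g) / (1 - u ^ 2 * g ^ 2)) ^ q ≤ 1)
    (T : lp (fun _ : Fin 2 => ℝ) P →L[ℝ] lp (fun _ : Fin 2 => ℝ) P) :
    u * (1 - g) / (1 + u ^ 2 * g) * ‖T‖ ≤ numRadius ℝ T := by
  have hp := hcj.p1
  have hp0 : 0 < p := by linarith
  set a := ent T 0 0 with ha
  set b := ent T 0 1 with hb
  set c := ent T 1 0 with hc
  set d := ent T 1 1 with hd
  set V := numRadius ℝ T with hV
  have hV0 : 0 ≤ V := numRadius_nonneg T
  set W : ℝ := V * (1 + u ^ 2 * g) with hW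
  have hs0 : 0 < u * g := mul_pos hu0 hg0
  have es : u * g = u ^ (q - 1) := by
    rw [← hg, mul_comm, ← Real.rpow_add_one hu0.ne']; congr 1; ring
  have J1 : J p 1 = 1 := by unfold J; simp
  have Js : J p (u * g) = u := by
    rw [J_pos' hp hs0.le, es, ← Real.rpow_mul hu0.le, mul_comm, hcj.e1, Real.rpow_one]
  have Jm1 : J p (-1) = -1 := by unfold J; simp
  have Jms : J p (-(u * g)) = -u := by rw [J_neg, Js]
  have ps : (u * g) ^ p = u ^ 2 * g := by
    rw [es, ← Real.rpow_mul hu0.le, hcj.e3, ← hg, ← Real.rpow_natCast u 2, ← Real.rpow_add hu0]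
    congr 1; push_cast; ring
  have s1 := state_ineq hp hPp T 1 (u * g)
  have s2 := state_ineq hp hPp T 1 (-(u * g))
  have s3 := state_ineq hp hPp T (u * g) 1
  have s4 := state_ineq hp hPp T (u * g) (-1)
  rw [← ha, ← hb, ← hc, ← hd, ← hV] at s1 s2 s3 s4
  rw [J1, Js, abs_one, Real.one_rpow, abs_of_pos hs0, ps] at s1
  rw [J1, Jms, abs_one, Real.one_rpow, abs_neg, abs_of_pos hs0, ps] at s2
  rw [J1, Js, abs_one, Real.one_rpow, abs_of_pos hs0, ps] at s3
  rw [Jm1, Js, abs_neg, abs_one, Real.one_rpow, abs_of_pos hs0, ps] at s4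
  rw [abs_le] at s1 s2 s3 s4
  obtain ⟨s1a, s1b⟩ := s1
  obtain ⟨s2a, s2b⟩ := s2
  obtain ⟨s3a, s3b⟩ := s3
  obtain ⟨s4a, s4b⟩ := s4
  -- the two inequalities
  have X1 : |a + u ^ 2 * g * d| + |g * u * b + u * c| ≤ W := by
    rw [hW]
    rcases abs_cases (a + u ^ 2 * g * d) with ⟨e1, _⟩ | ⟨e1, _⟩ <;>
    rcases abs_cases (g * u * b + u * c) with ⟨e2, _⟩ | ⟨e2, _⟩ <;> rw [e1, e2] <;> linarith
  have X2 : |u ^ 2 * g * a + d| + |u * b + g * u * c| ≤ W := by
    rw [hW]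
    rcases abs_cases (u ^ 2 * g * a + d) with ⟨e1, _⟩ | ⟨e1, _⟩ <;>
    rcases abs_cases (u * b + g * u * c) with ⟨e2, _⟩ | ⟨e2, _⟩ <;> rw [e1, e2] <;> linarith
  have hu2g : 0 < u ^ 2 * g := by positivity
  have hgu : 0 < g * u := by positivity
  have Y1 : |a| - u ^ 2 * g * |d| ≤ |a + u ^ 2 * g * d| := by
    have := abs_sub_abs_le_abs_sub a (-(u ^ 2 * g * d))
    rw [abs_neg, abs_mul, abs_of_pos hu2g, sub_neg_eq_add] at this
    exact this
  have Y2 : u * |b| - g * u * |c| ≤ |u * b + g * u * c| := by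
    have := abs_sub_abs_le_abs_sub (u * b) (-(g * u * c))
    rw [abs_neg, abs_mul, abs_mul (g * u), abs_of_pos hu0, abs_of_pos hgu, sub_neg_eq_add] at this
    exact this
  have Y3 : |d| - u ^ 2 * g * |a| ≤ |u ^ 2 * g * a + d| := by
    have := abs_sub_abs_le_abs_sub d (-(u ^ 2 * g * a))
    rw [abs_neg, abs_mul, abs_of_pos hu2g, sub_neg_eq_add, add_comm d] at this
    exact this
  have Y4 : u * |c| - g * u * |b| ≤ |g * u * b + u * c| := by
    have := abs_sub_abs_le_abs_sub (u * c) (-(g * u * b))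
    rw [abs_neg, abs_mul, abs_mul (g * u), abs_of_pos hu0, abs_of_pos hgu, sub_neg_eq_add,
      add_comm (u * c)] at this
    exact this
  have Z1 : |a| - u ^ 2 * g * |d| + (u * |c| - g * u * |b|) ≤ W := by linarith
  have Z2 : |d| - u ^ 2 * g * |a| + (u * |b| - g * u * |c|) ≤ W := by linarith
  have hK : 0 < u * (1 - g) := mul_pos hu0 (by linarith)
  set N : ℝ := W / (u * (1 - g)) with hN
  have hNW : u * (1 - g) * N = W := by rw [hN]; exact mul_div_cancel₀ W hK.ne'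
  have hqN : u * (1 - g ^ 2) * N = (1 + g) * W := by rw [← hNW]; ring
  have B1 : u * (1 - g ^ 2) * |c| ≤ u * (1 - g ^ 2) * N - |a| * (1 - u ^ 2 * g ^ 2) -
      |d| * (g * (1 - u ^ 2)) := by
    rw [hqN]
    have := mul_le_mul_of_nonneg_left Z2 hg0.le
    linarith
  have B2 : u * (1 - g ^ 2) * |b| ≤ u * (1 - g ^ 2) * N - |a| * (g * (1 - u ^ 2)) -
      |d| * (1 - u ^ 2 * g ^ 2) := by
    rw [hqN]
    have := mul_le_mul_of_nonneg_left Z1 hg0.le
    linarith
  have main : ‖T‖ ≤ N := by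
    have hN0 : 0 ≤ N := by
      rw [hN]
      refine div_nonneg ?_ hK.le
      rw [hW]; positivity
    refine ContinuousLinearMap.opNorm_le_bound T hN0 fun x => ?_
    have hx : ‖vec P |x 0| |x 1|‖ = ‖x‖ :=
      le_antisymm (norm_mono hp0 hPp _ _ (by simp) (by simp))
        (norm_mono hp0 hPp _ _ (by simp) (by simp))
    rw [← hx]
    have hT : ‖T x‖ ≤ ‖vec P (|a| * |x 0| + |b| * |x 1|) (|c| * |x 0| + |d| * |x 1|)‖ := by
      refine norm_mono hp0 hPp _ _ ?_ ?_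
      · rw [vec0, T_coord, ← ha, ← hb]
        refine le_trans ?_ (le_abs_self _)
        rw [← abs_mul, ← abs_mul]
        exact abs_add_le _ _
      · rw [vec1, T_coord, ← hc, ← hd]
        refine le_trans ?_ (le_abs_self _)
        rw [← abs_mul, ← abs_mul]
        exact abs_add_le _ _
    refine hT.trans ?_
    rcases le_total |d| |a| with h | h
    · exact key' hcj hPp hu0 hu1 hg0 hg1 hcond h (abs_nonneg _) (abs_nonneg _) (abs_nonneg _)
        (abs_nonneg _) (abs_nonneg _) B1 B2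
    · have h7 := key' (P := P) hcj hPp hu0 hu1 hg0 hg1 hcond (x := |x 1|) (y := |x 0|) h
        (abs_nonneg _) (abs_nonneg c) (abs_nonneg b) (abs_nonneg _) (abs_nonneg _) (N := N)
        (by linarith) (by linarith)
      have sw : ∀ s t : ℝ, ‖vec P s t‖ = ‖vec P t s‖ := fun s t =>
        le_antisymm (norm_vec_le hp0 hPp (by rw [add_comm])) (norm_vec_le hp0 hPp (by rw [add_comm]))
      rw [sw, sw |x 0|]
      have e1 : |c| * |x 0| + |d| * |x 1| = |d| * |x 1| + |c| * |x 0| := by ring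
      have e2 : |a| * |x 0| + |b| * |x 1| = |b| * |x 1| + |a| * |x 0| := by ring
      rw [e1, e2]
      exact h7
  have hden : 0 < 1 + u ^ 2 * g := by positivity
  calc u * (1 - g) / (1 + u ^ 2 * g) * ‖T‖ ≤ u * (1 - g) / (1 + u ^ 2 * g) * N :=
        mul_le_mul_of_nonneg_left main (div_nonneg hK.le hden.le)
    _ = V := by
        rw [div_mul_eq_mul_div, hNW, hW]
        field_simp

/-- **The plane.** `n(ℓ_p^2) = M_p` for real scalars and `1 < p < 2` -/
theorem index_two' (hcj : Cj p q) (hPp : P.toReal = p) :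
    numIndex ℝ (lp (fun _ : Fin 2 => ℝ) P) = bigM p := by
  have hp1 := hcj.p1
  have hq := hcj.q2
  have hp0 : 0 < p := by linarith
  rw [hcj.bigM]
  obtain ⟨u, h⟩ := exists_crit hq
  refine le_antisymm ?_ ?_
  · -- the rotation
    set T : lp (fun _ : Fin 2 => ℝ) P →L[ℝ] lp (fun _ : Fin 2 => ℝ) P :=
      (-(cf P (1 : Fin 2))).smulRight (lp.single P 0 1) +
        (cf P (0 : Fin 2)).smulRight (lp.single P 1 1) with hT
    have hTa : ∀ x, T x = (-(x 1)) • lp.single P 0 1 + (x 0) • lp.single P 1 1 := fun x => rfl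
    have hP0 : 0 < P := by
      rcases eq_or_ne P 0 with h0 | h0
      · rw [h0] at hPp; simp at hPp; linarith
      · exact pos_iff_ne_zero.mpr h0
    have h := numIndex_le T (bigM q) 1 h.M0.le (by norm_num) ?_ ?_
    · rwa [div_one] at h
    · have h1 := T.le_opNorm (lp.single P 0 1)
      have h2 : T (lp.single P 0 1) = lp.single P 1 1 := by
        rw [hTa, sgl', sgl', if_neg (by decide), if_pos rfl]
        simp
      rw [h2, lp.norm_single hP0, lp.norm_single hP0, mul_comm] at h1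
      simpa using h1
    · intro x f hx hf hfx
      have hc := state_coord (by linarith) hPp x hx f hf hfx
      rw [hTa, map_add, map_smul, map_smul, hc, hc]
      simp only [smul_eq_mul]
      have h3 := norm2 hp0 hPp x
      rw [hx, Real.one_rpow] at h3
      have n1 := h_nonneg h hq (J p (x 1)) (J p (x 0))
      have n2 := h_nonneg h hq (J p (x 0)) (J p (x 1))
      rw [hcj.JJ, hcj.JJ, hcj.abs, hcj.abs] at n1 n2
      rw [add_comm, ← h3, mul_one] at n1
      rw [← h3, mul_one] at n2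
      rw [abs_le]
      constructor <;> linarith
  · refine le_numIndex _ fun T => ?_
    have hg0 : 0 < u ^ (q - 2) := Real.rpow_pos_of_pos h.u0 _
    have hg1 : u ^ (q - 2) < 1 := Real.rpow_lt_one h.u0.le h.u1 (by linarith)
    have h1 := norm_le' hcj hPp h.u0 h.u1 hg0 hg1 rfl (h.cond hq rfl) T
    have e : bigM q = u * (1 - u ^ (q - 2)) / (1 + u ^ 2 * u ^ (q - 2)) := by
      have hne : 1 + u ^ 2 * u ^ (q - 2) ≠ 0 := by positivity
      rw [eq_div_iff hne]
      have h2 := h.eq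
      obtain ⟨e1, e2⟩ := h.pows
      rw [e1, e2] at h2
      linarith
    rw [e]
    exact h1

/-! ### at least three coordinates -/

variable {ι : Type} [DecidableEq ι]

/-- the transposed matrix -/
noncomputable def mat' (a c ε : ℝ) : Fin 3 → Fin 3 → ℝ := fun i j => mat a c ε j i

/-- **`n(ℓ_p(ι)) < M_p`** for real scalars, `1 < p < 2`, `|ι| ≥ 3` -/
theorem below' (hcj : Cj p q) (hp2 : p < 2) (hPp : P.toReal = p) {i0 i1 i2 : ι} (h01 : i0 ≠ i1)
    (h02 : i0 ≠ i2) (h12 : i1 ≠ i2) : numIndex ℝ (lp (fun _ : ι => ℝ) P) < bigM p := by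
  have hp1 := hcj.p1
  have hq := hcj.q2
  have hp0 : 0 < p := by linarith
  have hq0 : 0 < q := by linarith
  rw [hcj.bigM]
  obtain ⟨u, h⟩ := exists_crit hq
  have hM := h.M0
  obtain ⟨C, hC, hval⟩ := mat_value h hq
  obtain ⟨ha0, ha1⟩ := aa_bounds h hq
  set M := bigM q with hMdef
  set c : ℝ := (1 / 2) ^ (1 / q) with hcdef
  have hc : 0 < c := Real.rpow_pos_of_pos (by norm_num) _
  have hcp : c ^ q = 1 / 2 := by
    rw [hcdef, ← Real.rpow_mul (by norm_num), one_div_mul_cancel hq0.ne', Real.rpow_one]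
  have h2c : (2 * c) ^ p = 2 := by
    have e1 : c ^ (q - 1) = 1 / (2 * c) := by
      have : c ^ q = c ^ (q - 1) * c := by
        rw [← Real.rpow_add_one hc.ne']; congr 1; ring
      rw [eq_div_iff (by positivity)]
      linarith
    have e2 : 2 * c = (c ^ (q - 1))⁻¹ := by rw [e1]; field_simp
    rw [e2, Real.inv_rpow (by positivity), ← Real.rpow_mul hc.le, hcj.e3, hcp]
    norm_num
  set κ : ℝ := (1 - aa q u) ^ p with hκ
  have hκ0 : 0 < κ := Real.rpow_pos_of_pos (by linarith) _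
  set K : ℝ := p * 2 ^ (p - 1) * (C / M) with hK
  have hK0 : 0 < K := by positivity
  -- the choice of `ε`
  obtain ⟨ε, hε0, hε1, hεs, hεC⟩ : ∃ ε : ℝ, 0 < ε ∧ ε < 1 ∧ ε ^ (2 - p) < κ / K ∧
      C / M * ε ^ 2 < 1 := by
    have t1 : ∀ᶠ α : ℝ in 𝓝 0, α ^ (2 - p) < κ / K := by
      refine (Real.continuous_rpow_const (show 0 ≤ 2 - p by linarith)).continuousAt.eventually_lt
        continuousAt_const ?_
      rw [Real.zero_rpow (by linarith)]
      positivity
    have t2 : ∀ᶠ α : ℝ in 𝓝 0, C / M * α ^ 2 < 1 := by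
      refine (continuous_const.mul (continuous_pow 2)).continuousAt.eventually_lt
        continuousAt_const ?_
      change C / M * (0 : ℝ) ^ 2 < 1
      norm_num
    have t3 : ∀ᶠ α : ℝ in 𝓝 0, α < 1 := eventually_lt_nhds (by norm_num)
    have t4 : ∀ᶠ α : ℝ in 𝓝[>] 0, 0 < α := eventually_mem_nhdsWithin
    obtain ⟨α, ⟨⟨h1, h2⟩, h3⟩, h4⟩ :=
      ((((t1.and t2).and t3).filter_mono nhdsWithin_le_nhds).and t4).exists
    exact ⟨α, h4, h3, h1, h2⟩
  have hε2 : ε ^ 2 = ε ^ (2 - p) * ε ^ p := by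
    rw [← Real.rpow_natCast, ← Real.rpow_add hε0]; congr 1; push_cast; ring
  have hεp0 : 0 < ε ^ p := Real.rpow_pos_of_pos hε0 _
  -- the operator
  set T := op3 P i0 i1 i2 (mat' (aa q u) c ε) with hT
  have m00 : mat' (aa q u) c ε 0 0 = -(ε * aa q u) := rfl
  have m10 : mat' (aa q u) c ε 1 0 = -ε := rfl
  have m20 : mat' (aa q u) c ε 2 0 = c := rfl
  have m01 : mat' (aa q u) c ε 0 1 = ε := rfl
  have m11 : mat' (aa q u) c ε 1 1 = ε * aa q u := rfl
  have m21 : mat' (aa q u) c ε 2 1 = c := rfl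
  have m02 : mat' (aa q u) c ε 0 2 = -(1 / (2 * c)) := rfl
  have m12 : mat' (aa q u) c ε 1 2 = -(1 / (2 * c)) := rfl
  have m22 : mat' (aa q u) c ε 2 2 = 0 := rfl
  have hrad : ∀ (x : lp (fun _ : ι => ℝ) P) (f : lp (fun _ : ι => ℝ) P →L[ℝ] ℝ), ‖x‖ = 1 → ‖f‖ = 1 →
      f x = 1 → |f (T x)| ≤ M + C * ε ^ 2 := by
    intro x f hx hf hfx
    rw [hT, op3_state hp1 hPp i0 i1 i2 _ x f hx hf hfx]
    have h1 := hval c hc hcp ε (J p (x i0)) (J p (x i1)) (J p (x i2)) hε0.le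
    rw [hcj.JJ, hcj.JJ, hcj.JJ, hcj.abs, hcj.abs, hcj.abs] at h1
    have h2 := sum_le hp0 hPp x {i0, i1, i2}
    rw [hx, Real.one_rpow, Finset.sum_insert (by simp [h01, h02]), Finset.sum_insert (by simp [h12]),
      Finset.sum_singleton] at h2
    have h3 : (M + C * ε ^ 2) * (|x i0| ^ p + |x i1| ^ p + |x i2| ^ p) ≤ M + C * ε ^ 2 :=
      mul_le_of_le_one_right (by positivity) (by linarith)
    refine le_trans (le_of_eq ?_) (h1.trans h3)
    congr 1
    rw [m00, m01, m02, m10, m11, m12, m20, m21, m22]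
    ring
  have hnorm : 1 + κ * ε ^ p ≤ ‖T‖ ^ p := by
    have h1 := op3_norm hp0 hPp h01 h02 h12 (mat' (aa q u) c ε) 1 1 0
    rw [m00, m01, m02, m10, m11, m12, m20, m21, m22, ← hT, abs_one, abs_zero,
      Real.zero_rpow hp0.ne', Real.one_rpow] at h1
    have e0 : -(ε * aa q u) * 1 + ε * 1 + -(1 / (2 * c)) * 0 = ε * (1 - aa q u) := by ring
    have e1 : -ε * 1 + ε * aa q u * 1 + -(1 / (2 * c)) * 0 = -(ε * (1 - aa q u)) := by ring
    have e2 : c * 1 + c * 1 + 0 * 0 = 2 * c := by ring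
    have q0 : 0 < 1 - aa q u := by linarith
    rw [e0, e1, e2, abs_neg, abs_of_pos (mul_pos hε0 q0), abs_of_pos (by positivity : 0 < 2 * c),
      h2c, Real.mul_rpow hε0.le q0.le, ← hκ] at h1
    linarith
  -- comparison
  have hT0 : 0 ≤ ‖T‖ := norm_nonneg T
  have hkey : M + C * ε ^ 2 < M * ‖T‖ := by
    by_contra hcon
    rw [not_lt] at hcon
    set x : ℝ := C / M * ε ^ 2 with hx
    have hx0 : 0 ≤ x := by positivity
    have h1 : ‖T‖ ≤ 1 + x := by
      have : M * (1 + x) = M + C * ε ^ 2 := by rw [hx]; field_simp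
      rw [← this] at hcon
      exact le_of_mul_le_mul_left hcon hM
    have h2 : ‖T‖ ^ p ≤ (1 + x) ^ p := Real.rpow_le_rpow hT0 h1 hp0.le
    have h3 : (1 + x) ^ p ≤ 1 + K * ε ^ 2 := by
      have b := bern1 (s := 1 + x) (t := 1) (r := p) (by linarith) (by norm_num) (by linarith)
      rw [Real.one_rpow] at b
      have b2 : (1 + x) ^ (p - 1) ≤ 2 ^ (p - 1) :=
        Real.rpow_le_rpow (by linarith) (by linarith) (by linarith)
      have b3 : p * x * (1 + x) ^ (p - 1) ≤ p * x * 2 ^ (p - 1) :=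
        mul_le_mul_of_nonneg_left b2 (by positivity)
      have b4 : p * x * 2 ^ (p - 1) = K * ε ^ 2 := by rw [hK, hx]; ring
      linarith
    have h6 : κ * ε ^ p ≤ K * ε ^ 2 := by linarith
    rw [hε2] at h6
    rw [lt_div_iff₀ hK0] at hεs
    have h7 := mul_lt_mul_of_pos_right hεs hεp0
    linarith
  have hTpos : 0 < ‖T‖ := by
    by_contra h0
    have : ‖T‖ = 0 := le_antisymm (not_lt.mp h0) hT0
    rw [this, mul_zero] at hkey
    have : 0 < M + C * ε ^ 2 := by positivity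
    linarith
  have hfin := numIndex_le T (M + C * ε ^ 2) ‖T‖ (by positivity) hTpos le_rfl hrad
  refine hfin.trans_lt ?_
  rw [div_lt_iff₀ hTpos]
  exact hkey

/-! ### final form -/

/-- **Real scalars, every `p ≠ 2`.** -/
theorem real_all (P : ℝ≥0∞) [Fact (1 ≤ P)] (h1 : 1 < P) (htop : P ≠ ∞) (h2 : P ≠ 2) :
    numIndex ℝ (lp (fun _ : Fin 2 => ℝ) P) = bigM P.toReal ∧
    ∀ (ι : Type), (∃ i j k : ι, i ≠ j ∧ i ≠ k ∧ j ≠ k) →
      numIndex ℝ (lp (fun _ : ι => ℝ) P) < bigM P.toReal := by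
  classical
  have hp1 : 1 < P.toReal := by
    rw [← ENNReal.toReal_one]
    exact (ENNReal.toReal_lt_toReal ENNReal.one_ne_top htop).mpr h1
  have hp2 : P.toReal ≠ 2 := by
    intro h
    apply h2
    rw [← ENNReal.ofReal_toReal htop, h]
    simp
  rcases lt_or_gt_of_ne hp2 with h | h
  · refine ⟨index_two' (cj hp1 h) rfl, fun ι ⟨i, j, k, a, b, c⟩ => ?_⟩
    exact below' (cj hp1 h) h rfl a b c
  · refine ⟨index_two h rfl, fun ι ⟨i, j, k, a, b, c⟩ => ?_⟩
    exact below h rfl a b c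

end Pool.Agent.Y772.NI
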