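import Pool.Agent.Y772.NI.Base
import Pool.Agent.Y772.NI.Crit

/-!
# The main estimate
-/

set_option autoImplicit false

namespace Pool.Agent.Y772.NI

lemma J_of_nonneg {p x : ℝ} (hp : 2 < p) (hx : 0 ≤ x) : J p x = x ^ (p - 1) := by
  unfold J
  rw [abs_of_nonneg hx]
  rcases hx.eq_or_lt with h | h
  · rw [← h, mul_zero, Real.zero_rpow (by linarith)]
  · rw [← Real.rpow_add_one h.ne']; congr 1; ring

lemma J_neg (p x : ℝ) : J p (-x) = -J p x := by
  unfold J; rw [abs_neg]; ring

lemma abs_J {p x : ℝ} (hp : 2 < p) : |J p x| = |x| ^ (p - 1) := by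
  unfold J
  rw [abs_mul, abs_of_nonneg (Real.rpow_nonneg (abs_nonneg x) _)]
  rcases (abs_nonneg x).eq_or_lt with h | h
  · rw [← h, mul_zero, Real.zero_rpow (by linarith)]
  · rw [← Real.rpow_add_one h.ne']; congr 1; ring

variable {p M u : ℝ}

/-- the inequality in the first quadrant -/
lemma k_lower (h : Crit p M u) (hp : 2 < p) {x w ρ : ℝ} (hx : 0 ≤ x) (hw : 0 ≤ w) (hρ : 0 ≤ ρ)
    (hρ' : ρ ≤ x ∨ ρ ≤ w) :
    min (M * p / 2 * u ^ (p - 2)) M * (w - u * x) ^ 2 * ρ ^ (p - 2) ≤
      M * (x ^ p + w ^ p) - w * x ^ (p - 1) + w ^ (p - 1) * x := by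
  have hc0 : 0 < M * p / 2 * u ^ (p - 2) := by
    have := h.M0
    have := Real.rpow_pos_of_pos h.u0 (p - 2)
    positivity
  set c : ℝ := min (M * p / 2 * u ^ (p - 2)) M with hc
  have hcp : 0 < c := lt_min hc0 h.M0
  rcases le_total w x with hwx | hxw
  · have hρx : ρ ≤ x := hρ'.elim id fun h1 => h1.trans hwx
    rcases hx.eq_or_lt with hx0 | hx0
    · have hw0 : w = 0 := le_antisymm (by rw [hx0]; exact hwx) hw
      rw [← hx0, hw0, Real.zero_rpow (by linarith), Real.zero_rpow (by linarith)]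
      simp
    · have hq := h.quad hp (div_nonneg hw hx0.le)
      have h1 : c * (w / x - u) ^ 2 ≤ M * (1 + (w / x) ^ p) - w / x + (w / x) ^ (p - 1) :=
        (mul_le_mul_of_nonneg_right (min_le_left _ _) (sq_nonneg _)).trans hq
      have hxp : 0 < x ^ p := Real.rpow_pos_of_pos hx0 p
      have h2 := mul_le_mul_of_nonneg_left h1 hxp.le
      have e1 : x ^ p = x ^ (p - 2) * x ^ 2 := by
        rw [← Real.rpow_natCast x 2, ← Real.rpow_add hx0]; congr 1; push_cast; ring
      have e2 : x ^ (p - 1) = x ^ (p - 2) * x := by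
        rw [← Real.rpow_add_one hx0.ne']; congr 1; ring
      have e3 : x ^ p * (w / x) ^ p = w ^ p := by
        rw [Real.div_rpow hw hx0.le, mul_div_cancel₀ _ hxp.ne']
      have e4 : x ^ p * (w / x) ^ (p - 1) = w ^ (p - 1) * x := by
        have hxp1 : 0 < x ^ (p - 1) := Real.rpow_pos_of_pos hx0 _
        have : x ^ p = x ^ (p - 1) * x := by
          rw [← Real.rpow_add_one hx0.ne']; congr 1; ring
        rw [Real.div_rpow hw hx0.le, this]
        field_simp
      have e5 : x ^ p * (w / x) = w * x ^ (p - 1) := by rw [e1, e2]; field_simp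
      have e6 : x ^ p * (c * (w / x - u) ^ 2) = c * (w - u * x) ^ 2 * x ^ (p - 2) := by
        rw [e1]; field_simp
      have e7 : x ^ p * (M * (1 + (w / x) ^ p) - w / x + (w / x) ^ (p - 1)) =
          M * (x ^ p + x ^ p * (w / x) ^ p) - x ^ p * (w / x) + x ^ p * (w / x) ^ (p - 1) := by ring
      rw [e6, e7, e3, e4, e5] at h2
      refine le_trans ?_ h2
      refine mul_le_mul_of_nonneg_left (Real.rpow_le_rpow hρ hρx (by linarith)) ?_
      positivity
  · have hρw : ρ ≤ w := hρ'.elim (fun h1 => h1.trans hxw) id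
    rcases hw.eq_or_lt with hw0 | hw0
    · have hx0 : x = 0 := le_antisymm (by rw [hw0]; exact hxw) hx
      rw [← hw0, hx0, Real.zero_rpow (by linarith), Real.zero_rpow (by linarith)]
      simp
    · have h1 : w * x ^ (p - 1) ≤ w ^ (p - 1) * x := by
        rcases hx.eq_or_lt with hx0 | hx0
        · rw [← hx0, Real.zero_rpow (by linarith)]; simp
        · have e2 : x ^ (p - 1) = x ^ (p - 2) * x := by
            rw [← Real.rpow_add_one hx0.ne']; congr 1; ring
          have e3 : w ^ (p - 1) = w ^ (p - 2) * w := by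
            rw [← Real.rpow_add_one hw0.ne']; congr 1; ring
          rw [e2, e3]
          have := Real.rpow_le_rpow hx hxw (show 0 ≤ p - 2 by linarith)
          have h3 := mul_le_mul_of_nonneg_right this (mul_nonneg hw hx)
          linarith
      have e1 : w ^ p = w ^ (p - 2) * w ^ 2 := by
        rw [← Real.rpow_natCast w 2, ← Real.rpow_add hw0]; congr 1; push_cast; ring
      have h2 : (w - u * x) ^ 2 ≤ w ^ 2 := by
        have a1 : 0 ≤ u * x := mul_nonneg h.u0.le hx
        have a2 : u * x ≤ w := (mul_le_of_le_one_left hx h.u1.le).trans hxw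
        nlinarith
      have h3 : ρ ^ (p - 2) ≤ w ^ (p - 2) := Real.rpow_le_rpow hρ hρw (by linarith)
      have h4 : 0 ≤ x ^ p := Real.rpow_nonneg hx p
      calc c * (w - u * x) ^ 2 * ρ ^ (p - 2) ≤ M * w ^ 2 * w ^ (p - 2) := by
            have := Real.rpow_nonneg hρ (p - 2)
            have := h.M0
            gcongr
            exact min_le_right _ _
        _ = M * w ^ p := by rw [e1]; ring
        _ ≤ M * (x ^ p + w ^ p) - w * x ^ (p - 1) + w ^ (p - 1) * x := by
            have := mul_nonneg h.M0.le h4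
            linarith

/-- the distance to the critical lines -/
noncomputable def dd (u x w : ℝ) : ℝ := if 0 ≤ x * w then |w - u * x| else |x + u * w|

lemma dd_nonneg (u x w : ℝ) : 0 ≤ dd u x w := by
  unfold dd; split_ifs <;> exact abs_nonneg _

/-- the inequality in the plane with remainder -/
lemma h_lower (h : Crit p M u) (hp : 2 < p) {x w ρ : ℝ} (hρ : 0 ≤ ρ) (hρ' : ρ ≤ |x| ∨ ρ ≤ |w|) :
    min (M * p / 2 * u ^ (p - 2)) M * dd u x w ^ 2 * ρ ^ (p - 2) ≤
      M * (|x| ^ p + |w| ^ p) - (w * J p x - J p w * x) := by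
  unfold dd
  rcases le_or_gt 0 x with hx | hx <;> rcases le_or_gt 0 w with hw | hw
  · rw [if_pos (mul_nonneg hx hw), sq_abs, J_of_nonneg hp hx, J_of_nonneg hp hw, abs_of_nonneg hx,
      abs_of_nonneg hw]
    rw [abs_of_nonneg hx, abs_of_nonneg hw] at hρ'
    have := k_lower h hp hx hw hρ hρ'
    linarith
  · rcases hx.eq_or_lt with hx0 | hx0
    · rw [← hx0, zero_mul, if_pos le_rfl, sq_abs, abs_zero]
      rw [← hx0, abs_zero, abs_of_neg hw] at hρ'
      have hw' : 0 ≤ -w := by linarith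
      have := k_lower h hp le_rfl hw' hρ hρ'
      rw [abs_of_neg hw]
      have e : J p 0 = 0 := by unfold J; simp
      have e2 : (0:ℝ) ^ (p - 1) = 0 := Real.zero_rpow (by linarith)
      rw [e2] at this
      rw [e]
      have e3 : (w - u * 0) ^ 2 = (-w - u * 0) ^ 2 := by ring
      rw [e3]
      linarith
    · rw [if_neg (not_le.mpr (mul_neg_of_pos_of_neg hx0 hw)), sq_abs]
      obtain ⟨v, rfl⟩ : ∃ v, w = -v := ⟨-w, by ring⟩
      have hv : 0 ≤ v := by linarith
      rw [J_neg, J_of_nonneg hp hx, J_of_nonneg hp hv, abs_neg, abs_of_nonneg hx, abs_of_nonneg hv]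
      rw [abs_neg, abs_of_nonneg hx, abs_of_nonneg hv] at hρ'
      have := k_lower h hp hv hx hρ hρ'.symm
      have e : x + u * -v = x - u * v := by ring
      rw [e]
      linarith
  · rcases hw.eq_or_lt with hw0 | hw0
    · rw [← hw0, mul_zero, if_pos le_rfl, sq_abs, abs_zero]
      rw [← hw0, abs_zero, abs_of_neg hx] at hρ'
      have hx' : 0 ≤ -x := by linarith
      have := k_lower h hp hx' le_rfl hρ hρ'
      rw [abs_of_neg hx]
      have e : J p 0 = 0 := by unfold J; simp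
      have e2 : (0:ℝ) ^ (p - 1) = 0 := Real.zero_rpow (by linarith)
      rw [e2] at this
      rw [e]
      have e3 : (0 - u * x) ^ 2 = (0 - u * -x) ^ 2 := by ring
      rw [e3]
      linarith
    · rw [if_neg (not_le.mpr (mul_neg_of_neg_of_pos hx hw0)), sq_abs]
      obtain ⟨v, rfl⟩ : ∃ v, x = -v := ⟨-x, by ring⟩
      have hv : 0 ≤ v := by linarith
      rw [J_neg, J_of_nonneg hp hw, J_of_nonneg hp hv, abs_neg, abs_of_nonneg hw, abs_of_nonneg hv]
      rw [abs_neg, abs_of_nonneg hw, abs_of_nonneg hv] at hρ'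
      have := k_lower h hp hw hv hρ hρ'.symm
      have e : (-v + u * w) ^ 2 = (v - u * w) ^ 2 := by ring
      rw [e]
      linarith
  · rw [if_pos (mul_pos_of_neg_of_neg hx hw).le, sq_abs]
    obtain ⟨v, rfl⟩ : ∃ v, x = -v := ⟨-x, by ring⟩
    obtain ⟨z, rfl⟩ : ∃ z, w = -z := ⟨-w, by ring⟩
    have hv : 0 ≤ v := by linarith
    have hz : 0 ≤ z := by linarith
    rw [J_neg, J_neg, J_of_nonneg hp hz, J_of_nonneg hp hv, abs_neg, abs_neg, abs_of_nonneg hz,
      abs_of_nonneg hv]
    rw [abs_neg, abs_neg, abs_of_nonneg hz, abs_of_nonneg hv] at hρ'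
    have := k_lower h hp hv hz hρ hρ'
    have e : (-z - u * -v) ^ 2 = (z - u * v) ^ 2 := by ring
    rw [e]
    linarith

lemma h_nonneg (h : Crit p M u) (hp : 2 < p) (x w : ℝ) :
    w * J p x - J p w * x ≤ M * (|x| ^ p + |w| ^ p) := by
  have h1 := h_lower h hp (x := x) (w := w) le_rfl (Or.inl (abs_nonneg x))
  rw [Real.zero_rpow (by linarith), mul_zero] at h1
  linarith

/-! ### Lipschitz bounds -/

lemma pow_lip {r s t R : ℝ} (hr : 1 ≤ r) (hs : 0 ≤ s) (ht : 0 ≤ t) (hsR : s ≤ R) (htR : t ≤ R) :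
    |s ^ r - t ^ r| ≤ r * R ^ (r - 1) * |s - t| := by
  have main : ∀ a b : ℝ, 0 ≤ b → b ≤ a → a ≤ R → a ^ r - b ^ r ≤ r * R ^ (r - 1) * (a - b) := by
    intro a b hb hab haR
    rcases (hb.trans hab).eq_or_lt with ha | ha
    · have : b = 0 := le_antisymm (by rw [ha]; exact hab) hb
      rw [← ha, this]; simp
    · have h1 := bern1 ha hb hr
      have h2 : a ^ (r - 1) ≤ R ^ (r - 1) := Real.rpow_le_rpow ha.le haR (by linarith)
      have h3 := mul_le_mul_of_nonneg_left h2 (show 0 ≤ r * (a - b) from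
        mul_nonneg (by linarith) (by linarith))
      linarith
  rcases le_total t s with h | h
  · rw [abs_of_nonneg (sub_nonneg.mpr (Real.rpow_le_rpow ht h (by linarith))),
      abs_of_nonneg (sub_nonneg.mpr h)]
    exact main s t ht h hsR
  · rw [abs_sub_comm, abs_sub_comm s,
      abs_of_nonneg (sub_nonneg.mpr (Real.rpow_le_rpow hs h (by linarith))),
      abs_of_nonneg (sub_nonneg.mpr h)]
    exact main t s hs h htR

lemma abs_pow_lip {x y R : ℝ} (hp : 2 < p) (hx : |x| ≤ R) (hy : |y| ≤ R) :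
    |(|x| ^ p - |y| ^ p)| ≤ p * R ^ (p - 1) * |x - y| := by
  refine (pow_lip (by linarith) (abs_nonneg x) (abs_nonneg y) hx hy).trans ?_
  have hR : 0 ≤ R := (abs_nonneg x).trans hx
  have := Real.rpow_nonneg hR (p - 1)
  exact mul_le_mul_of_nonneg_left (abs_abs_sub_abs_le x y) (by positivity)

lemma J_lip {x y R : ℝ} (hp : 2 < p) (hx : |x| ≤ R) (hy : |y| ≤ R) :
    |J p x - J p y| ≤ (p - 1) * R ^ (p - 2) * |x - y| := by
  have hR : 0 ≤ R := (abs_nonneg x).trans hx
  have hRp := Real.rpow_nonneg hR (p - 2)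
  -- opposite signs
  have opp : ∀ a b : ℝ, 0 ≤ a → 0 ≤ b → a ≤ R → b ≤ R →
      a ^ (p - 1) + b ^ (p - 1) ≤ (p - 1) * R ^ (p - 2) * (a + b) := by
    have one : ∀ a : ℝ, 0 ≤ a → a ≤ R → a ^ (p - 1) ≤ (p - 1) * R ^ (p - 2) * a := by
      intro a ha haR
      rcases ha.eq_or_lt with h0 | h0
      · rw [← h0, Real.zero_rpow (by linarith)]; simp
      · have e2 : a ^ (p - 1) = a ^ (p - 2) * a := by
          rw [← Real.rpow_add_one h0.ne']; congr 1; ring
        rw [e2]
        refine mul_le_mul_of_nonneg_right ?_ ha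
        have := Real.rpow_le_rpow ha haR (show 0 ≤ p - 2 by linarith)
        nlinarith
    intro a b ha hb haR hbR
    have := one a ha haR
    have := one b hb hbR
    linarith
  have e : p - 1 - 1 = p - 2 := by ring
  rcases le_total 0 x with h1 | h1 <;> rcases le_total 0 y with h2 | h2
  · rw [abs_of_nonneg h1] at hx
    rw [abs_of_nonneg h2] at hy
    rw [J_of_nonneg hp h1, J_of_nonneg hp h2]
    have := pow_lip (show 1 ≤ p - 1 by linarith) h1 h2 hx hy
    rwa [e] at this
  · obtain ⟨v, rfl⟩ : ∃ v, y = -v := ⟨-y, by ring⟩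
    have hv : 0 ≤ v := by linarith
    rw [abs_of_nonneg h1] at hx
    rw [abs_neg, abs_of_nonneg hv] at hy
    rw [J_neg, J_of_nonneg hp h1, J_of_nonneg hp hv, sub_neg_eq_add, sub_neg_eq_add,
      abs_of_nonneg (add_nonneg (Real.rpow_nonneg h1 _) (Real.rpow_nonneg hv _)),
      abs_of_nonneg (add_nonneg h1 hv)]
    exact opp x v h1 hv hx hy
  · obtain ⟨v, rfl⟩ : ∃ v, x = -v := ⟨-x, by ring⟩
    have hv : 0 ≤ v := by linarith
    rw [abs_neg, abs_of_nonneg hv] at hx
    rw [abs_of_nonneg h2] at hy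
    have e1 : -J p v - J p y = -(J p v + J p y) := by ring
    have e2 : -v - y = -(v + y) := by ring
    rw [J_neg, e1, e2, abs_neg, abs_neg, J_of_nonneg hp h2, J_of_nonneg hp hv,
      abs_of_nonneg (add_nonneg (Real.rpow_nonneg hv _) (Real.rpow_nonneg h2 _)),
      abs_of_nonneg (add_nonneg hv h2)]
    exact opp v y hv h2 hx hy
  · obtain ⟨v, rfl⟩ : ∃ v, x = -v := ⟨-x, by ring⟩
    obtain ⟨z, rfl⟩ : ∃ z, y = -z := ⟨-y, by ring⟩
    have hv : 0 ≤ v := by linarith
    have hz : 0 ≤ z := by linarith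
    rw [abs_neg, abs_of_nonneg hv] at hx
    rw [abs_neg, abs_of_nonneg hz] at hy
    have e1 : -J p v - -J p z = -(J p v - J p z) := by ring
    have e2 : -v - -z = -(v - z) := by ring
    rw [J_neg, J_neg, e1, e2, abs_neg, abs_neg, J_of_nonneg hp hv, J_of_nonneg hp hz]
    have := pow_lip (show 1 ≤ p - 1 by linarith) hv hz hx hy
    rwa [e] at this

/-- the perturbation -/
noncomputable def BB (p a x y : ℝ) : ℝ := a * (|y| ^ p - |x| ^ p) + (J p y * x - J p x * y)

lemma BB_swap (p a x y : ℝ) : BB p a y x = -BB p a x y := by unfold BB; ring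

lemma BB_self (p a x : ℝ) : BB p a x x = 0 := by unfold BB; ring

/-- the coefficient -/
noncomputable def aa (p u : ℝ) : ℝ :=
  u ^ 2 * (1 - (u ^ (p - 2)) ^ 2) / (1 - u ^ 4 * (u ^ (p - 2)) ^ 2)

lemma aa_bounds (h : Crit p M u) (hp : 2 < p) : 0 < aa p u ∧ aa p u < 1 := by
  have hu0 := h.u0
  have hu1 := h.u1
  have hg0 : 0 < u ^ (p - 2) := Real.rpow_pos_of_pos hu0 _
  have hg1 : u ^ (p - 2) < 1 := Real.rpow_lt_one hu0.le hu1 (by linarith)
  have hu2 : u ^ 2 < 1 := pow_lt_one₀ hu0.le hu1 (by norm_num)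
  have hu4 : u ^ 4 < 1 := pow_lt_one₀ hu0.le hu1 (by norm_num)
  have hg2 : (u ^ (p - 2)) ^ 2 < 1 := by nlinarith
  have hden : 0 < 1 - u ^ 4 * (u ^ (p - 2)) ^ 2 := by nlinarith [pow_pos hu0 4, pow_pos hg0 2]
  unfold aa
  constructor
  · exact div_pos (mul_pos (pow_pos hu0 2) (by linarith)) hden
  · rw [div_lt_one hden]
    have e : 1 - u ^ 4 * (u ^ (p - 2)) ^ 2 - u ^ 2 * (1 - (u ^ (p - 2)) ^ 2) =
      (1 - u ^ 2) * (1 + u ^ 2 * (u ^ (p - 2)) ^ 2) := by ring
    have : 0 < (1 - u ^ 2) * (1 + u ^ 2 * (u ^ (p - 2)) ^ 2) :=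
      mul_pos (by linarith) (by positivity)
    linarith

lemma BB_crit (h : Crit p M u) (hp : 2 < p) (x : ℝ) : BB p (aa p u) x (-(u ^ 2 * x)) = 0 := by
  have hu0 := h.u0
  have hu1 := h.u1
  have hg0 : 0 < u ^ (p - 2) := Real.rpow_pos_of_pos hu0 _
  have hg1 : u ^ (p - 2) < 1 := Real.rpow_lt_one hu0.le hu1 (by linarith)
  have hu4 : u ^ 4 < 1 := pow_lt_one₀ hu0.le hu1 (by norm_num)
  have hg2 : (u ^ (p - 2)) ^ 2 < 1 := by nlinarith
  have hden : 1 - u ^ 4 * (u ^ (p - 2)) ^ 2 ≠ 0 := by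
    have : 0 < 1 - u ^ 4 * (u ^ (p - 2)) ^ 2 := by nlinarith [pow_pos hu0 4, pow_pos hg0 2]
    exact this.ne'
  obtain ⟨e1, e2⟩ := h.pows
  have j1 : J p (u ^ 2 * x) = u ^ 2 * (u ^ (p - 2)) ^ 2 * J p x := by
    have : u ^ 2 * x = u * (u * x) := by ring
    rw [this, J_smul hu0, J_smul hu0, e1]; ring
  have j2 : |u ^ 2 * x| ^ p = u ^ 4 * (u ^ (p - 2)) ^ 2 * |x| ^ p := by
    rw [abs_mul, abs_of_pos (pow_pos hu0 2), Real.mul_rpow (by positivity) (abs_nonneg x)]
    have : (u ^ 2) ^ p = u ^ p * u ^ p := by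
      rw [pow_two, Real.mul_rpow hu0.le hu0.le]
    rw [this, e2]; ring
  unfold BB
  rw [J_neg, abs_neg, j1, j2]
  have j3 : J p x * x = |x| ^ p := J_mul (by linarith) x
  have e3 : -(u ^ 2 * (u ^ (p - 2)) ^ 2 * J p x) * x - J p x * -(u ^ 2 * x) =
      u ^ 2 * (1 - (u ^ (p - 2)) ^ 2) * (J p x * x) := by ring
  rw [e3, j3]
  unfold aa
  field_simp
  ring

lemma BB_lip {a x y y' R : ℝ} (hp : 2 < p) (ha : 0 ≤ a) (ha1 : a ≤ 1) (hx : |x| ≤ R) (hy : |y| ≤ R)
    (hy' : |y'| ≤ R) : |BB p a x y - BB p a x y'| ≤ 2 * p * R ^ (p - 1) * |y - y'| := by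
  have hR : 0 ≤ R := (abs_nonneg x).trans hx
  have hRp := Real.rpow_nonneg hR (p - 2)
  have hRp1 := Real.rpow_nonneg hR (p - 1)
  have hRR : R ^ (p - 2) * R ≤ R ^ (p - 1) := by
    rcases hR.eq_or_lt with h0 | h0
    · rw [← h0, mul_zero]; exact Real.rpow_nonneg le_rfl _
    · rw [← Real.rpow_add_one h0.ne']; apply le_of_eq; congr 1; ring
  have h1 := abs_pow_lip hp hy hy'
  have h2 := J_lip hp hy hy'
  have h3 : |J p x| ≤ R ^ (p - 1) := by
    rw [abs_J hp]; exact Real.rpow_le_rpow (abs_nonneg x) hx (by linarith)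
  have e : BB p a x y - BB p a x y' =
      a * (|y| ^ p - |y'| ^ p) + ((J p y - J p y') * x - J p x * (y - y')) := by unfold BB; ring
  rw [e]
  have t1 : |a * (|y| ^ p - |y'| ^ p)| ≤ p * R ^ (p - 1) * |y - y'| := by
    rw [abs_mul, abs_of_nonneg ha]
    calc a * |(|y| ^ p - |y'| ^ p)| ≤ 1 * (p * R ^ (p - 1) * |y - y'|) := by gcongr
      _ = _ := one_mul _
  have t2 : |(J p y - J p y') * x| ≤ (p - 1) * R ^ (p - 1) * |y - y'| := by
    rw [abs_mul]
    have hq : 0 ≤ (p - 1) * R ^ (p - 2) * |y - y'| := by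
      have : 0 ≤ p - 1 := by linarith
      positivity
    calc |J p y - J p y'| * |x| ≤ ((p - 1) * R ^ (p - 2) * |y - y'|) * R :=
          mul_le_mul h2 hx (abs_nonneg _) hq
      _ = (p - 1) * |y - y'| * (R ^ (p - 2) * R) := by ring
      _ ≤ (p - 1) * |y - y'| * R ^ (p - 1) :=
          mul_le_mul_of_nonneg_left hRR (mul_nonneg (by linarith) (abs_nonneg _))
      _ = _ := by ring
  have t3 : |J p x * (y - y')| ≤ R ^ (p - 1) * |y - y'| := by
    rw [abs_mul]; gcongr
  calc |a * (|y| ^ p - |y'| ^ p) + ((J p y - J p y') * x - J p x * (y - y'))|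
      ≤ |a * (|y| ^ p - |y'| ^ p)| + (|(J p y - J p y') * x| + |J p x * (y - y')|) :=
        (abs_add_le _ _).trans (add_le_add le_rfl (abs_sub _ _))
    _ ≤ p * R ^ (p - 1) * |y - y'| + ((p - 1) * R ^ (p - 1) * |y - y'| + R ^ (p - 1) * |y - y'|) := by
        gcongr
    _ = 2 * p * R ^ (p - 1) * |y - y'| := by ring

lemma BB_bound (h : Crit p M u) (hp : 2 < p) {x y w R : ℝ} (hx : |x| ≤ R) (hy : |y| ≤ R) :
    |BB p (aa p u) x y| ≤ 2 * p / u * R ^ (p - 1) * (dd u x w + dd u y w) := by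
  have hu0 := h.u0
  have hu1 := h.u1
  have hR : 0 ≤ R := (abs_nonneg x).trans hx
  have hRp1 := Real.rpow_nonneg hR (p - 1)
  obtain ⟨ha0, ha1⟩ := aa_bounds h hp
  have hiu : 1 ≤ 1 / u := by rw [le_div_iff₀ hu0]; linarith
  have hd1 := dd_nonneg u x w
  have hd2 := dd_nonneg u y w
  have fin : ∀ D : ℝ, D ≤ 1 / u * (dd u x w + dd u y w) → |BB p (aa p u) x y| ≤ 2 * p * R ^ (p - 1) * D →
      |BB p (aa p u) x y| ≤ 2 * p / u * R ^ (p - 1) * (dd u x w + dd u y w) := by
    intro D hD hB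
    refine hB.trans ?_
    have := mul_le_mul_of_nonneg_left hD (show 0 ≤ 2 * p * R ^ (p - 1) by positivity)
    refine this.trans (le_of_eq ?_)
    ring
  have same : |y - x| ≤ 1 / u * (dd u x w + dd u y w) →
      |BB p (aa p u) x y| ≤ 2 * p / u * R ^ (p - 1) * (dd u x w + dd u y w) := by
    intro hD
    refine fin _ hD ?_
    have := BB_lip hp ha0.le ha1.le hx hy hx
    rwa [BB_self, sub_zero] at this
  have hux : ∀ z : ℝ, |z| ≤ R → |-(u ^ 2 * z)| ≤ R := by
    intro z hz
    rw [abs_neg, abs_mul, abs_of_pos (pow_pos hu0 2)]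
    have : u ^ 2 ≤ 1 := by nlinarith
    exact (mul_le_of_le_one_left (abs_nonneg z) this).trans hz
  by_cases c1 : 0 ≤ x * w <;> by_cases c2 : 0 ≤ y * w
  · apply same
    have e1 : dd u x w = |w - u * x| := if_pos c1
    have e2 : dd u y w = |w - u * y| := if_pos c2
    rw [e1, e2]
    have e3 : u * |y - x| ≤ |w - u * x| + |w - u * y| := by
      have : u * |y - x| = |(w - u * x) - (w - u * y)| := by
        rw [← abs_of_pos hu0, ← abs_mul, abs_of_pos hu0]; congr 1; ring
      rw [this]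
      exact abs_sub _ _
    rw [one_div, ← div_eq_inv_mul, le_div_iff₀ hu0, mul_comm]
    exact e3
  · refine fin |y + u ^ 2 * x| ?_ ?_
    · have e1 : dd u x w = |w - u * x| := if_pos c1
      have e2 : dd u y w = |y + u * w| := if_neg c2
      rw [e1, e2]
      have e3 : |y + u ^ 2 * x| ≤ |y + u * w| + |w - u * x| := by
        have : y + u ^ 2 * x = (y + u * w) - u * (w - u * x) := by ring
        rw [this]
        refine (abs_sub _ _).trans (add_le_add le_rfl ?_)
        rw [abs_mul, abs_of_pos hu0]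
        exact mul_le_of_le_one_left (abs_nonneg _) hu1.le
      refine e3.trans ?_
      have := mul_le_mul_of_nonneg_right hiu (show 0 ≤ |w - u * x| + |y + u * w| by positivity)
      linarith
    · have := BB_lip hp ha0.le ha1.le hx hy (hux x hx)
      rw [BB_crit h hp, sub_zero, sub_neg_eq_add] at this
      exact this
  · refine fin |x + u ^ 2 * y| ?_ ?_
    · have e1 : dd u x w = |x + u * w| := if_neg c1
      have e2 : dd u y w = |w - u * y| := if_pos c2
      rw [e1, e2]
      have e3 : |x + u ^ 2 * y| ≤ |x + u * w| + |w - u * y| := by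
        have : x + u ^ 2 * y = (x + u * w) - u * (w - u * y) := by ring
        rw [this]
        refine (abs_sub _ _).trans (add_le_add le_rfl ?_)
        rw [abs_mul, abs_of_pos hu0]
        exact mul_le_of_le_one_left (abs_nonneg _) hu1.le
      refine e3.trans ?_
      have := mul_le_mul_of_nonneg_right hiu (show 0 ≤ |x + u * w| + |w - u * y| by positivity)
      linarith
    · have := BB_lip hp ha0.le ha1.le hy hx (hux y hy)
      rw [BB_crit h hp, sub_zero, sub_neg_eq_add] at this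
      rw [BB_swap, abs_neg]
      exact this
  · apply same
    have e1 : dd u x w = |x + u * w| := if_neg c1
    have e2 : dd u y w = |y + u * w| := if_neg c2
    rw [e1, e2]
    have e3 : |y - x| ≤ |x + u * w| + |y + u * w| := by
      have : y - x = (y + u * w) - (x + u * w) := by ring
      rw [this]
      refine (abs_sub _ _).trans (le_of_eq (add_comm _ _))
    refine e3.trans ?_
    have := mul_le_mul_of_nonneg_right hiu (show 0 ≤ |x + u * w| + |y + u * w| by positivity)
    linarith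

/-- the two remainders together -/
lemma two_lower (h : Crit p M u) (hp : 2 < p) : ∃ c : ℝ, 0 < c ∧ ∀ x y w R : ℝ, |x| ≤ R → |y| ≤ R →
    |w| ≤ R → (R = |x| ∨ R = |y| ∨ R = |w|) →
    c * (dd u x w + dd u y w) ^ 2 * R ^ (p - 2) ≤
      M * (|x| ^ p + |w| ^ p) - (w * J p x - J p w * x) +
        (M * (|y| ^ p + |w| ^ p) - (w * J p y - J p w * y)) := by
  have hu0 := h.u0
  have hu1 := h.u1
  have hgp : 0 < u ^ (p - 2) := Real.rpow_pos_of_pos hu0 _
  have hc1 : 0 < min (M * p / 2 * u ^ (p - 2)) M := by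
    refine lt_min ?_ h.M0
    have := h.M0
    positivity
  set c₁ : ℝ := min (M * p / 2 * u ^ (p - 2)) M with hc₁
  set δ : ℝ := u / 4 with hδ
  have hδ0 : 0 < δ := by rw [hδ]; linarith
  have hδ1 : δ ≤ 1 := by rw [hδ]; linarith
  have hδp : 0 < δ ^ (p - 2) := Real.rpow_pos_of_pos hδ0 _
  have hδp1 : δ ^ (p - 2) ≤ 1 := Real.rpow_le_one hδ0.le hδ1 (by linarith)
  refine ⟨c₁ * δ ^ (p - 2) / 4, by positivity, ?_⟩
  -- half of the statement
  have half : ∀ x y w R : ℝ, |x| ≤ R → |y| ≤ R → |w| ≤ R → (R = |y| ∨ R = |w|) →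
      c₁ * δ ^ (p - 2) / 4 * (dd u x w + dd u y w) ^ 2 * R ^ (p - 2) ≤
        M * (|x| ^ p + |w| ^ p) - (w * J p x - J p w * x) +
        (M * (|y| ^ p + |w| ^ p) - (w * J p y - J p w * y)) := by
    intro x y w R hx hy hw hR
    have hR0 : 0 ≤ R := (abs_nonneg x).trans hx
    have hRp := Real.rpow_nonneg hR0 (p - 2)
    have d1 := dd_nonneg u x w
    have d2 := dd_nonneg u y w
    have n1 := h_nonneg h hp x w
    have k2 := h_lower h hp (x := y) (w := w) hR0 (hR.imp le_of_eq le_of_eq)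
    by_cases hc : δ * R ≤ |x| ∨ δ * R ≤ |w|
    · have k1 := h_lower h hp (x := x) (w := w) (mul_nonneg hδ0.le hR0) hc
      rw [Real.mul_rpow hδ0.le hR0] at k1
      rw [← hc₁] at k1 k2
      have k3 : c₁ * dd u y w ^ 2 * (δ ^ (p - 2) * R ^ (p - 2)) ≤ c₁ * dd u y w ^ 2 * R ^ (p - 2) := by
        refine mul_le_mul_of_nonneg_left ?_ (by positivity)
        exact mul_le_of_le_one_left hRp hδp1
      have k4 : (dd u x w + dd u y w) ^ 2 ≤ 4 * (dd u x w ^ 2 + dd u y w ^ 2) := by nlinarith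
      have k5 := mul_le_mul_of_nonneg_left k4 (show 0 ≤ c₁ * δ ^ (p - 2) / 4 * R ^ (p - 2) by positivity)
      linarith
    · rw [not_or, not_le, not_le] at hc
      obtain ⟨hx1, hw1⟩ := hc
      rcases hR0.eq_or_lt with h0 | h0
      · rw [← h0, mul_zero] at hx1
        exact absurd hx1 (not_lt.mpr (abs_nonneg x))
      have hRy : R = |y| := by
        rcases hR with h1 | h1
        · exact h1
        · exfalso
          rw [← h1] at hw1
          nlinarith
      have e2 : 2 * (δ * R) ≤ dd u y w := by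
        unfold dd
        split_ifs with hs
        · have : u * |y| - |w| ≤ |w - u * y| := by
            have h3 := abs_sub_abs_le_abs_sub (u * y) w
            rw [abs_mul, abs_of_pos hu0, abs_sub_comm] at h3
            exact h3
          rw [← hRy] at this
          have h6 := mul_pos hu0 h0
          rw [hδ] at hw1 ⊢
          linarith
        · have : |y| - u * |w| ≤ |y + u * w| := by
            have h3 := abs_sub_abs_le_abs_sub y (-(u * w))
            rw [abs_neg, abs_mul, abs_of_pos hu0, sub_neg_eq_add] at h3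
            exact h3
          rw [← hRy] at this
          have h4 : u * |w| ≤ |w| := mul_le_of_le_one_left (abs_nonneg _) hu1.le
          have h5 : δ * R ≤ R / 4 := by
            rw [hδ]; nlinarith
          linarith
      have e1 : dd u x w ≤ 2 * (δ * R) := by
        unfold dd
        split_ifs with hs
        · have : |w - u * x| ≤ |w| + |x| := by
            refine (abs_sub _ _).trans (add_le_add le_rfl ?_)
            rw [abs_mul, abs_of_pos hu0]
            exact mul_le_of_le_one_left (abs_nonneg _) hu1.le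
          linarith
        · have : |x + u * w| ≤ |x| + |w| := by
            refine (abs_add_le _ _).trans (add_le_add le_rfl ?_)
            rw [abs_mul, abs_of_pos hu0]
            exact mul_le_of_le_one_left (abs_nonneg _) hu1.le
          linarith
      have k4 : (dd u x w + dd u y w) ^ 2 ≤ 4 * dd u y w ^ 2 := by nlinarith
      have k5 := mul_le_mul_of_nonneg_left k4 (show 0 ≤ c₁ * δ ^ (p - 2) / 4 * R ^ (p - 2) by positivity)
      have k6 : c₁ * dd u y w ^ 2 * R ^ (p - 2) * δ ^ (p - 2) ≤ c₁ * dd u y w ^ 2 * R ^ (p - 2) :=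
        mul_le_of_le_one_right (by positivity) hδp1
      linarith
  intro x y w R hx hy hw hR
  rcases hR with h1 | h1 | h1
  · have := half y x w R hy hx hw (Or.inl h1)
    rw [add_comm (dd u x w)]
    linarith
  · exact half x y w R hx hy hw (Or.inl h1)
  · exact half x y w R hx hy hw (Or.inr h1)

/-- **The main estimate.** -/
theorem main_est (h : Crit p M u) (hp : 2 < p) : ∃ C : ℝ, 0 < C ∧ ∀ ε x y w : ℝ, 0 ≤ ε →
    |w * (J p x + J p y) - J p w * (x + y) + ε * BB p (aa p u) x y| ≤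
      (M + C * ε ^ 2) * (|x| ^ p + |y| ^ p + 2 * |w| ^ p) := by
  obtain ⟨c, hc, hlow⟩ := two_lower h hp
  have hu0 := h.u0
  set L : ℝ := 2 * p / u with hL
  have hL0 : 0 < L := by positivity
  refine ⟨L ^ 2 / (4 * c), by positivity, ?_⟩
  have up : ∀ ε x y w b : ℝ, 0 ≤ ε → |b| = |BB p (aa p u) x y| →
      w * (J p x + J p y) - J p w * (x + y) + ε * b ≤
      (M + L ^ 2 / (4 * c) * ε ^ 2) * (|x| ^ p + |y| ^ p + 2 * |w| ^ p) := by
    intro ε x y w b hε hb
    obtain ⟨R, hx, hy, hw, hR⟩ : ∃ R, |x| ≤ R ∧ |y| ≤ R ∧ |w| ≤ R ∧ (R = |x| ∨ R = |y| ∨ R = |w|) := by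
      refine ⟨max |x| (max |y| |w|), le_max_left _ _, (le_max_left _ _).trans (le_max_right _ _),
        (le_max_right _ _).trans (le_max_right _ _), ?_⟩
      rcases max_choice |x| (max |y| |w|) with h1 | h1
      · exact Or.inl h1
      · rcases max_choice |y| |w| with h2 | h2
        · exact Or.inr (Or.inl (h1.trans h2))
        · exact Or.inr (Or.inr (h1.trans h2))
    have hR0 : 0 ≤ R := (abs_nonneg x).trans hx
    have k1 := hlow x y w R hx hy hw hR
    have k2 := BB_bound h hp (w := w) hx hy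
    rw [← hL] at k2
    set D : ℝ := dd u x w + dd u y w with hD
    have hp0 : 0 < p := by linarith
    have X0 := Real.rpow_nonneg (abs_nonneg x) p
    have Y0 := Real.rpow_nonneg (abs_nonneg y) p
    have W0 := Real.rpow_nonneg (abs_nonneg w) p
    have k3 : R ^ p ≤ |x| ^ p + |y| ^ p + 2 * |w| ^ p := by
      rcases hR with h1 | h1 | h1 <;> rw [h1] <;> linarith
    have k4 : b ≤ L * R ^ (p - 1) * D := (le_abs_self b).trans (hb.le.trans k2)
    have k5 : ε * b ≤ ε * (L * R ^ (p - 1) * D) := mul_le_mul_of_nonneg_left k4 hε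
    have e1 : R ^ (p - 1) = R ^ (p - 2) * R := by
      rcases hR0.eq_or_lt with h0 | h0
      · rw [← h0, mul_zero, Real.zero_rpow (by linarith)]
      · rw [← Real.rpow_add_one h0.ne']; congr 1; ring
    have e2 : R ^ p = R ^ (p - 2) * R ^ 2 := by
      rcases hR0.eq_or_lt with h0 | h0
      · rw [← h0, Real.zero_rpow (by linarith)]; simp
      · rw [← Real.rpow_natCast R 2, ← Real.rpow_add h0]; congr 1; push_cast; ring
    have k6 : ε * (L * R ^ (p - 1) * D) ≤ c * D ^ 2 * R ^ (p - 2) + L ^ 2 / (4 * c) * ε ^ 2 * R ^ p := by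
      rw [e1, e2]
      have hRp := Real.rpow_nonneg hR0 (p - 2)
      have : 0 ≤ R ^ (p - 2) * (c * (D - ε * L * R / (2 * c)) ^ 2) := by positivity
      have e3 : R ^ (p - 2) * (c * (D - ε * L * R / (2 * c)) ^ 2) =
          c * D ^ 2 * R ^ (p - 2) + L ^ 2 / (4 * c) * ε ^ 2 * (R ^ (p - 2) * R ^ 2) -
            ε * (L * (R ^ (p - 2) * R) * D) := by
        field_simp
        ring
      linarith
    have k7 : L ^ 2 / (4 * c) * ε ^ 2 * R ^ p ≤
        L ^ 2 / (4 * c) * ε ^ 2 * (|x| ^ p + |y| ^ p + 2 * |w| ^ p) :=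
      mul_le_mul_of_nonneg_left k3 (by positivity)
    linarith
  intro ε x y w hε
  rw [abs_le]
  constructor
  · have h1 := up ε x y (-w) (-(BB p (aa p u) x y)) hε (abs_neg _)
    rw [J_neg, abs_neg] at h1
    linarith
  · exact up ε x y w _ hε rfl

end Pool.Agent.Y772.NI
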