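import Mathlib

/-!
# A positive sextic (sum of squares certificate)
-/

set_option autoImplicit false

namespace Pool.Agent.Y772.NI

theorem sextic (x y z : ℝ) : 0 ≤ 508 / 1000 * (x ^ 6 + y ^ 6 + z ^ 6) +
    (x ^ 5 * (-(5 / 1000) * x - 19 / 1000 * y + 901 / 1000 * z) +
      y ^ 5 * (19 / 1000 * x + 5 / 1000 * y + 901 / 1000 * z) +
      z ^ 5 * (-(569 / 1000) * x - 569 / 1000 * y)) := by
  have h : 508 / 1000 * (x ^ 6 + y ^ 6 + z ^ 6) +
    (x ^ 5 * (-(5 / 1000) * x - 19 / 1000 * y + 901 / 1000 * z) +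
      y ^ 5 * (19 / 1000 * x + 5 / 1000 * y + 901 / 1000 * z) +
      z ^ 5 * (-(569 / 1000) * x - 569 / 1000 * y)) =
      (1/50300000 : ℝ) * ((5030)*(x^3) + (-95)*(x^2*y) + (4505)*(x^2*z) + (-761)*(x*y^2) + (-530)*(x*y*z) + (-3511)*(x*z^2) + (8)*(y^3) + (-726)*(y^2*z) + (-652)*(y*z^2) + (596)*(z^3))^2 +
      (1/15385029620000 : ℝ) * ((1529327)*(x^2*y) + (618775)*(x^2*z) + (-22507)*(x*y^2) + (1372174)*(x*y*z) + (506711)*(x*z^2) + (-741270)*(y^3) + (-520818)*(y^2*z) + (-560658)*(y*z^2) + (-548012)*(z^3))^2 +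
      (1/64045347027182680000 : ℝ) * ((4187812484)*(x^2*z) + (65185616)*(x*y^2) + (7345724)*(x*y*z) + (3585886670)*(x*z^2) + (-686715941)*(y^3) + (1045591640)*(y^2*z) + (2134085581)*(y*z^2) + (-4645157480)*(z^3))^2 +
      (1/372095069012905500162200000 : ℝ) * ((7108151483564)*(x*y^2) + (6196989291070)*(x*y*z) + (-5309474213126)*(x*z^2) + (483459951518)*(y^3) + (3213625885794)*(y^2*z) + (2153764172223)*(y*z^2) + (-2369088297874)*(z^3))^2 +
      (1/4831958192694508404173071800000 : ℝ) * ((135955408487490)*(x*y*z) + (100464784234006)*(x*z^2) + (-567784054694948)*(y^3) + (-392340902440202)*(y^2*z) + (484074107858013)*(y*z^2) + (-144123459032666)*(z^3))^2 +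
      (1/8162071930120380162835158865800000 : ℝ) * ((6003491895558842)*(x*z^2) + (33071483265278549)*(y^3) + (18419612401510676)*(y^2*z) + (-36251632835452149)*(y*z^2) + (6014231892256358)*(z^3))^2 +
      (1/967989841180974924712601602254864800000 : ℝ) * ((16123780260235838440)*(y^3) + (18720187986954193130)*(y^2*z) + (-8684515192170042603)*(y*z^2) + (-3646019348032849329)*(z^3))^2 +
      (1/181782045259343137178910394124580469904480000 : ℝ) * ((5637078970483447203646)*(y^2*z) + (4947925443683095499383)*(y*z^2) + (-4392636551653377794667)*(z^3))^2 +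
      (13/1590936790811559248871415206751883742567531650000 : ℝ) * ((11289086416152281204471)*(y*z^2) + (-2666595350810397123062)*(z^3))^2 +
      (171178538538056313501437/225781728323045624089420000 : ℝ) * ((1)*(z^3))^2 := by ring
  rw [h]
  positivity

end Pool.Agent.Y772.NI
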