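import Pool.Agent.Y772.NI.Base
import Pool.Agent.Y772.NI.Sextic

/-!
# The operator on `ℓ_6^m`, `m ≥ 3`
-/

set_option autoImplicit false

namespace Pool.Agent.Y772.NI

open scoped ENNReal

instance fact6 : Fact ((1 : ℝ≥0∞) ≤ 6) := ⟨by norm_num⟩

lemma toReal6 : (6 : ℝ≥0∞).toReal = 6 := by norm_num

lemma J6 (z : ℝ) : J 6 z = z ^ 5 := by
  unfold J
  have : (6 : ℝ) - 2 = ((4 : ℕ) : ℝ) := by norm_num
  rw [this, Real.rpow_natCast, Even.pow_abs (by decide)]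
  ring

section

variable {ι : Type} [DecidableEq ι]

omit [DecidableEq ι] in
lemma sum_le6 (x : lp (fun _ : ι => ℝ) 6) (s : Finset ι) : ∑ i ∈ s, x i ^ 6 ≤ ‖x‖ ^ 6 := by
  have h := lp.sum_rpow_le_norm_rpow (by rw [toReal6]; norm_num) x s
  rw [toReal6] at h
  have e : (6 : ℝ) = ((6 : ℕ) : ℝ) := by norm_num
  rw [e] at h
  simp only [Real.rpow_natCast, Real.norm_eq_abs] at h
  refine le_trans (le_of_eq ?_) h
  refine Finset.sum_congr rfl fun i _ => ?_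
  rw [Even.pow_abs (by decide)]

lemma sgl (i j : ι) (c : ℝ) : (lp.single 6 i c : lp (fun _ : ι => ℝ) 6) j = if j = i then c else 0 := by
  by_cases h : j = i
  · subst h
    rw [lp.single_apply_self, if_pos rfl]
  · rw [lp.single_apply_ne _ _ _ h, if_neg h]

/-- The coordinate functional. -/
noncomputable def ev (i : ι) : lp (fun _ : ι => ℝ) 6 →L[ℝ] ℝ := lp.evalCLM ℝ (fun _ : ι => ℝ) 6 i

omit [DecidableEq ι] in
lemma ev_apply (i : ι) (x : lp (fun _ : ι => ℝ) 6) : ev i x = x i := rfl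

/-- The operator. -/
noncomputable def opT (i0 i1 i2 : ι) : lp (fun _ : ι => ℝ) 6 →L[ℝ] lp (fun _ : ι => ℝ) 6 :=
  ((-(5 / 1000) : ℝ) • ev i0 - (19 / 1000 : ℝ) • ev i1 + (901 / 1000 : ℝ) • ev i2).smulRight
      (lp.single 6 i0 1) +
    ((19 / 1000 : ℝ) • ev i0 + (5 / 1000 : ℝ) • ev i1 + (901 / 1000 : ℝ) • ev i2).smulRight
      (lp.single 6 i1 1) +
    ((-(569 / 1000) : ℝ) • ev i0 - (569 / 1000 : ℝ) • ev i1).smulRight (lp.single 6 i2 1)

lemma opT_apply (i0 i1 i2 : ι) (x : lp (fun _ : ι => ℝ) 6) : opT i0 i1 i2 x =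
    (-(5 / 1000) * x i0 - 19 / 1000 * x i1 + 901 / 1000 * x i2) • lp.single 6 i0 1 +
    (19 / 1000 * x i0 + 5 / 1000 * x i1 + 901 / 1000 * x i2) • lp.single 6 i1 1 +
    (-(569 / 1000) * x i0 - 569 / 1000 * x i1) • lp.single 6 i2 1 := rfl

lemma opT_radius {i0 i1 i2 : ι} (h01 : i0 ≠ i1) (h02 : i0 ≠ i2) (h12 : i1 ≠ i2)
    (x : lp (fun _ : ι => ℝ) 6) (f : lp (fun _ : ι => ℝ) 6 →L[ℝ] ℝ) (hx : ‖x‖ = 1) (hf : ‖f‖ = 1)
    (hfx : f x = 1) : |f (opT i0 i1 i2 x)| ≤ 508 / 1000 := by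
  have hc : ∀ i, f (lp.single 6 i 1) = x i ^ 5 := fun i => by
    rw [← J6]
    exact state_coord (by norm_num) toReal6 x hx f hf hfx i
  rw [opT_apply, map_add, map_add, map_smul, map_smul, map_smul, hc, hc, hc]
  simp only [smul_eq_mul]
  have h1 := sextic (x i0) (x i1) (x i2)
  have h2 := sextic (x i1) (x i0) (-(x i2))
  have h3 := sum_le6 x {i0, i1, i2}
  rw [hx, one_pow, Finset.sum_insert (by simp [h01, h02]), Finset.sum_insert (by simp [h12]),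
    Finset.sum_singleton] at h3
  rw [abs_le]
  constructor
  · linarith
  · have e : (-(x i2)) ^ 6 = x i2 ^ 6 := by ring
    have e2 : (-(x i2)) ^ 5 = -(x i2 ^ 5) := by ring
    rw [e, e2] at h2
    linarith

/-- test vector -/
noncomputable def tv (i0 i1 i2 : ι) : lp (fun _ : ι => ℝ) 6 :=
  lp.single 6 i2 1 + lp.single 6 i1 (-(379 / 1000)) + lp.single 6 i0 (379 / 1000)

lemma opT_norm {i0 i1 i2 : ι} (h01 : i0 ≠ i1) (h02 : i0 ≠ i2) (h12 : i1 ≠ i2) :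
    10162 / 10000 ≤ ‖opT i0 i1 i2‖ := by
  have e6 : (6 : ℝ) = ((6 : ℕ) : ℝ) := by norm_num
  have hP : 0 < (6 : ℝ≥0∞).toReal := by rw [toReal6]; norm_num
  have c0 : tv i0 i1 i2 i0 = 379 / 1000 := by
    unfold tv
    rw [lp.coeFn_add, lp.coeFn_add, Pi.add_apply, Pi.add_apply, sgl, sgl, sgl, if_neg h02,
      if_neg h01, if_pos rfl]
    norm_num
  have c1 : tv i0 i1 i2 i1 = -(379 / 1000) := by
    unfold tv
    rw [lp.coeFn_add, lp.coeFn_add, Pi.add_apply, Pi.add_apply, sgl, sgl, sgl, if_neg h12,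
      if_pos rfl, if_neg h01.symm]
    norm_num
  have c2 : tv i0 i1 i2 i2 = 1 := by
    unfold tv
    rw [lp.coeFn_add, lp.coeFn_add, Pi.add_apply, Pi.add_apply, sgl, sgl, sgl, if_pos rfl,
      if_neg h12.symm, if_neg h02.symm]
    norm_num
  have n1 : ‖tv i0 i1 i2‖ ^ 6 = 1 + 2 * (379 / 1000) ^ 6 := by
    have a1 := norm_add_single hP (lp.single 6 i2 1 : lp (fun _ : ι => ℝ) 6) i1 (-(379 / 1000))
    have a2 := norm_add_single hP
      (lp.single 6 i2 1 + lp.single 6 i1 (-(379 / 1000)) : lp (fun _ : ι => ℝ) 6) i0 (379 / 1000)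
    have b1 : (lp.single 6 i2 1 : lp (fun _ : ι => ℝ) 6) i1 = 0 := by rw [sgl, if_neg h12]
    have b2 : (lp.single 6 i2 1 + lp.single 6 i1 (-(379 / 1000)) : lp (fun _ : ι => ℝ) 6) i0 = 0 := by
      rw [lp.coeFn_add, Pi.add_apply, sgl, sgl, if_neg h02, if_neg h01, add_zero]
    have b3 : ‖(lp.single 6 i2 1 : lp (fun _ : ι => ℝ) 6)‖ = 1 := by
      rw [lp.norm_single (by norm_num)]; simp
    rw [b1, b3] at a1
    rw [b2, a1] at a2
    rw [toReal6, e6] at a2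
    simp only [Real.rpow_natCast] at a2
    unfold tv
    rw [a2]
    norm_num
  have n2 : 2 * (906306 / 1000000) ^ 6 ≤ ‖opT i0 i1 i2 (tv i0 i1 i2)‖ ^ 6 := by
    have h := sum_le6 (opT i0 i1 i2 (tv i0 i1 i2)) {i0, i1}
    rw [Finset.sum_insert (by simp [h01]), Finset.sum_singleton] at h
    have d0 : opT i0 i1 i2 (tv i0 i1 i2) i0 = 906306 / 1000000 := by
      rw [opT_apply, c0, c1, c2, lp.coeFn_add, lp.coeFn_add, lp.coeFn_smul, lp.coeFn_smul,
        lp.coeFn_smul]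
      simp only [Pi.add_apply, Pi.smul_apply, sgl, if_neg h01, if_neg h02, if_true, smul_eq_mul]
      norm_num
    have d1 : opT i0 i1 i2 (tv i0 i1 i2) i1 = 906306 / 1000000 := by
      rw [opT_apply, c0, c1, c2, lp.coeFn_add, lp.coeFn_add, lp.coeFn_smul, lp.coeFn_smul,
        lp.coeFn_smul]
      simp only [Pi.add_apply, Pi.smul_apply, sgl, if_neg h01.symm, if_neg h12, if_true, smul_eq_mul]
      norm_num
    rw [d0, d1] at h
    linarith
  by_contra hcon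
  rw [not_le] at hcon
  have h3 := (opT i0 i1 i2).le_opNorm (tv i0 i1 i2)
  have h4 : ‖opT i0 i1 i2 (tv i0 i1 i2)‖ ^ 6 ≤ (‖opT i0 i1 i2‖ * ‖tv i0 i1 i2‖) ^ 6 := by gcongr
  rw [mul_pow, n1] at h4
  have h5 : ‖opT i0 i1 i2‖ ^ 6 ≤ (10162 / 10000) ^ 6 := by gcongr
  have h6 : (2 : ℝ) * (906306 / 1000000) ^ 6 ≤ (10162 / 10000) ^ 6 * (1 + 2 * (379 / 1000) ^ 6) :=
    n2.trans (h4.trans (mul_le_mul_of_nonneg_right h5 (by positivity)))
  norm_num at h6

/-- **Upper bound**: the numerical index of the real space `ℓ_6(ι)`, `|ι| ≥ 3`. -/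
theorem upper {i0 i1 i2 : ι} (h01 : i0 ≠ i1) (h02 : i0 ≠ i2) (h12 : i1 ≠ i2) :
    numIndex ℝ (lp (fun _ : ι => ℝ) 6) ≤ 49991 / 100000 := by
  have h := numIndex_le (opT i0 i1 i2) (508 / 1000) (10162 / 10000) (by norm_num) (by norm_num)
    (opT_norm h01 h02 h12) (opT_radius h01 h02 h12)
  refine h.trans ?_
  norm_num

end

end Pool.Agent.Y772.NI
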