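import Pool.Agent.Y772.NI.Big
import Pool.Agent.Y772.NI.Upper

/-!
# The real plane `ℓ_6^2` has numerical index `1/2`
-/

set_option autoImplicit false

namespace Pool.Agent.Y772.NI

open scoped ENNReal

/-- golden ratio -/
lemma golden : ∃ u : ℝ, 0 < u ∧ u < 1 ∧ u ^ 2 = 1 - u ∧ 618 / 1000 < u ∧ u < 619 / 1000 := by
  refine ⟨(√5 - 1) / 2, ?_⟩
  have h5 : √5 ^ 2 = (5 : ℝ) := Real.sq_sqrt (by norm_num)
  have h1 : (2236 : ℝ) / 1000 < √5 := Real.lt_sqrt_of_sq_lt (by norm_num)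
  have h2 : √5 < (2237 : ℝ) / 1000 := (Real.sqrt_lt' (by norm_num)).mpr (by norm_num)
  refine ⟨by linarith, by linarith, ?_, by linarith, by linarith⟩
  nlinarith

theorem lower6 : 1 / 2 ≤ numIndex ℝ (lp (fun _ : Fin 2 => ℝ) 6) := by
  refine le_numIndex _ fun T => ?_
  obtain ⟨u, hu0, hu1, hu, hl, hr⟩ := golden
  have h3 : u ^ 3 = 2 * u - 1 := by
    have : u ^ 3 = u * u ^ 2 := by ring
    rw [this, hu]
    have : u * (1 - u) = u - u ^ 2 := by ring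
    rw [this, hu]; ring
  have h4 : u ^ 4 = 2 - 3 * u := by
    have : u ^ 4 = u ^ 2 * u ^ 2 := by ring
    rw [this, hu]
    have : (1 - u) * (1 - u) = 1 - 2 * u + u ^ 2 := by ring
    rw [this, hu]; ring
  have hg : u ^ ((6 : ℝ) - 2) = 2 - 3 * u := by
    have : (6 : ℝ) - 2 = ((4 : ℕ) : ℝ) := by norm_num
    rw [this, Real.rpow_natCast, h4]
  have hA0 : 0 ≤ u * (1 - (2 - 3 * u) ^ 2) / (1 - u ^ 2 * (2 - 3 * u) ^ 2) := by
    have e1 : 0 < 1 - u ^ 2 * (2 - 3 * u) ^ 2 := by nlinarith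
    have e2 : 0 < 1 - (2 - 3 * u) ^ 2 := by nlinarith
    positivity
  have hA : u * (1 - (2 - 3 * u) ^ 2) / (1 - u ^ 2 * (2 - 3 * u) ^ 2) ≤ 62 / 100 := by
    have e1 : 0 < 1 - u ^ 2 * (2 - 3 * u) ^ 2 := by nlinarith
    rw [div_le_iff₀ e1]
    nlinarith
  have hG0 : 0 ≤ (1 - (2 - 3 * u)) * (1 + u ^ 2 * (2 - 3 * u)) / (1 - u ^ 2 * (2 - 3 * u) ^ 2) := by
    have e1 : 0 < 1 - u ^ 2 * (2 - 3 * u) ^ 2 := by nlinarith
    have e2 : 0 < 1 - (2 - 3 * u) := by linarith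
    have e3 : 0 < 2 - 3 * u := by linarith
    positivity
  have hG : (1 - (2 - 3 * u)) * (1 + u ^ 2 * (2 - 3 * u)) / (1 - u ^ 2 * (2 - 3 * u) ^ 2) ≤
      92 / 100 := by
    have e1 : 0 < 1 - u ^ 2 * (2 - 3 * u) ^ 2 := by nlinarith
    rw [div_le_iff₀ e1]
    nlinarith
  have hcond : (u * (1 - (2 - 3 * u) ^ 2) / (1 - u ^ 2 * (2 - 3 * u) ^ 2)) ^ (6 : ℝ) +
      ((1 - (2 - 3 * u)) * (1 + u ^ 2 * (2 - 3 * u)) / (1 - u ^ 2 * (2 - 3 * u) ^ 2)) ^ (6 : ℝ) ≤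
        1 := by
    have e6 : (6 : ℝ) = ((6 : ℕ) : ℝ) := by norm_num
    have a1 := Real.rpow_le_rpow hA0 hA (show (0:ℝ) ≤ 6 by norm_num)
    have a2 := Real.rpow_le_rpow hG0 hG (show (0:ℝ) ≤ 6 by norm_num)
    have a3 : ((62 : ℝ) / 100) ^ (6 : ℝ) + ((92 : ℝ) / 100) ^ (6 : ℝ) ≤ 1 := by
      rw [e6, Real.rpow_natCast, Real.rpow_natCast]
      norm_num
    linarith
  have h := norm_le (by norm_num) toReal6 hu0 hu1 (g := 2 - 3 * u) (by linarith) (by linarith) hg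
    hcond T
  have e : u * (1 - (2 - 3 * u)) / (1 + u ^ 2 * (2 - 3 * u)) = 1 / 2 := by
    have h0 : 1 + u ^ 2 * (2 - 3 * u) ≠ 0 := by nlinarith
    rw [div_eq_iff h0]
    have e1 : u * (1 - (2 - 3 * u)) = 3 * u ^ 2 - u := by ring
    have e2 : 1 / 2 * (1 + u ^ 2 * (2 - 3 * u)) = 1 / 2 + u ^ 2 - 3 / 2 * u ^ 3 := by ring
    rw [e1, e2, h3, hu]; ring
  rw [e] at h
  exact h

/-- rotation by a right angle -/
noncomputable def rot : lp (fun _ : Fin 2 => ℝ) 6 →L[ℝ] lp (fun _ : Fin 2 => ℝ) 6 :=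
  (-(ev (1 : Fin 2))).smulRight (lp.single 6 0 1) + (ev (0 : Fin 2)).smulRight (lp.single 6 1 1)

lemma rot_apply (x : lp (fun _ : Fin 2 => ℝ) 6) :
    rot x = (-(x 1)) • lp.single 6 0 1 + (x 0) • lp.single 6 1 1 := rfl

theorem upper6 : numIndex ℝ (lp (fun _ : Fin 2 => ℝ) 6) ≤ 1 / 2 := by
  have h := numIndex_le rot (1 / 2) 1 (by norm_num) (by norm_num) ?_ ?_
  · rwa [div_one] at h
  · have h1 := rot.le_opNorm (lp.single 6 0 1)
    have h2 : rot (lp.single 6 0 1) = lp.single 6 1 1 := by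
      rw [rot_apply, sgl, sgl, if_neg (by decide), if_pos rfl]
      simp
    rw [h2, lp.norm_single (by norm_num), lp.norm_single (by norm_num), mul_comm] at h1
    simpa using h1
  · intro x f hx hf hfx
    have hc : ∀ i, f (lp.single 6 i 1) = x i ^ 5 := fun i => by
      rw [← J6]
      exact state_coord (by norm_num) toReal6 x hx f hf hfx i
    rw [rot_apply, map_add, map_smul, map_smul, hc, hc]
    simp only [smul_eq_mul]
    have h3 := sum_le6 x Finset.univ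
    rw [hx, one_pow, Fin.sum_univ_two] at h3
    have p1 : 0 ≤ (x 0 ^ 2 - x 0 * x 1 - x 1 ^ 2) ^ 2 * (x 0 ^ 2 + x 1 ^ 2) := by positivity
    have p2 : 0 ≤ (x 0 ^ 2 + x 0 * x 1 - x 1 ^ 2) ^ 2 * (x 0 ^ 2 + x 1 ^ 2) := by positivity
    rw [abs_le]
    constructor
    · nlinarith
    · nlinarith

theorem index6 : numIndex ℝ (lp (fun _ : Fin 2 => ℝ) 6) = 1 / 2 := le_antisymm upper6 lower6

end Pool.Agent.Y772.NI
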